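import Pool.Agent.H754.Twist.Count2

/-!
The inequality obtained by averaging over the classes modulo two.
-/

set_option autoImplicit false
set_option linter.unusedSectionVars false

namespace Pool.Agent.H754.Twist

open Finset Matrix
open Pool.Agent.H762.TG (chi sum_chi chi_add zmod_add_self IsUnit')
open Pool.Agent.H762.MX

theorem average {M : Type} [AddCommGroup M] [Module.Free ℤ M] [Module.Finite ℤ M]
    {A B : Type} [DecidableEq A] [DecidableEq B] {T : Finset A} {S : Finset B}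
    {f : A → M →ₗ[ℤ] ℤ} {c : B → M →ₗ[ℤ] ℤ} {w : B → ℤ} {P : M → Prop}
    (hM : ∀ z : M, ∃ u v, z = u + (2 : ℤ) • v ∧ ((∀ a ∈ T, U1 (f a u)) ∧ P u))
    (h1 : ∀ z : M, P z → ∑ b ∈ S, w b * c b z ^ 2 ≤ ∑ a ∈ T, f a z ^ 2)
    (hw : ∀ b ∈ S, 0 ≤ w b) (hc : ∀ b ∈ S, c b ≠ 0)
    (hodd : ∀ a ∈ T, ∃ z, Odd (f a z)) : ∑ b ∈ S, w b ≤ T.card := by
  classical
  obtain ⟨r, red, u, hu, hu2, hred, hred0⟩ := reps hM
  have hu1 : ∀ n, ∀ a ∈ T, U1 (f a (u n)) := fun n => (hu n).1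
  have hpow := pow_pos' r
  have hne : ∀ g : M →ₗ[ℤ] ℤ, (∃ x, Odd (g x)) → red g ≠ 0 := by
    rintro g ⟨x, hx⟩ h0
    rw [← hred0, hred] at h0
    have h2 := h0 x
    rw [LinearMap.zero_apply, Int.cast_zero, cast_zero_iff] at h2
    exact (Int.not_even_iff_odd.2 hx) h2
  have hchi : ∀ (n : Fin r → ZMod 2) (g : M →ₗ[ℤ] ℤ),
      (Even (g (u n)) ∧ chi (n ⬝ᵥ red g) = 1) ∨ (Odd (g (u n)) ∧ chi (n ⬝ᵥ red g) = -1) := by
    intro n g
    rw [← hu2]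
    exact chi_cast _
  have hunit : ∀ (n : Fin r → ZMod 2), ∀ a ∈ T, 1 - chi (n ⬝ᵥ red (f a)) =
      2 * (f a (u n)) ^ 2 := by
    intro n a ha
    rcases hchi n (f a) with ⟨h2, h3⟩ | ⟨h2, h3⟩ <;> rw [h3] <;>
      rcases hu1 n a ha with h4 | h4 | h4 <;> rw [h4] at h2 ⊢ <;> revert h2 <;> decide
  have hodd' : ∀ a ∈ T, red (f a) ≠ 0 := fun a ha => hne _ (hodd a ha)
  have hT : ∀ n : Fin r → ZMod 2, ∑ b ∈ S, 2 * (w b * c b (u n) ^ 2) ≤
      ∑ a ∈ T, 1 * (1 - chi (n ⬝ᵥ red (f a))) := by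
    intro n
    rw [← mul_sum]
    have h2 : ∑ a ∈ T, 1 * (1 - chi (n ⬝ᵥ red (f a))) = 2 * ∑ a ∈ T, f a (u n) ^ 2 := by
      rw [mul_sum]
      exact sum_congr rfl fun a ha => by rw [hunit n a ha]; ring
    rw [h2]
    have := h1 (u n) (hu n).2
    linarith
  have hparts : ∀ b, ∃ (j : ℕ) (g : M →ₗ[ℤ] ℤ), b ∈ S →
      ((∀ x, c b x = 2 ^ j * g x) ∧ ∃ x, Odd (g x)) := by
    intro b
    by_cases hb : b ∈ S
    · obtain ⟨x, hx⟩ : ∃ x, c b x ≠ 0 := by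
        by_contra hcon
        push Not at hcon
        exact hc b hb (LinearMap.ext hcon)
      obtain ⟨j, g, h2, h3⟩ := odd_part x _ (c b) hx le_rfl
      exact ⟨j, g, fun _ => ⟨h2, h3⟩⟩
    · exact ⟨0, 0, fun h => absurd h hb⟩
  choose j g hjg using hparts
  have hg' : ∀ b ∈ S, red (g b) ≠ 0 := fun b hb => hne _ (hjg b hb).2
  have hterm : ∀ (n : Fin r → ZMod 2), ∀ b ∈ S,
      w b * (1 - chi (n ⬝ᵥ red (g b))) ≤ 2 * (w b * c b (u n) ^ 2) := by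
    intro n b hb
    have h0 := hw b hb
    have h3 : 1 - chi (n ⬝ᵥ red (g b)) ≤ 2 * c b (u n) ^ 2 := by
      rcases hchi n (g b) with ⟨-, h5⟩ | ⟨h5, h6⟩
      · rw [h5]
        have := sq_nonneg (c b (u n))
        linarith
      · rw [h6]
        have h7 : c b (u n) ≠ 0 := by
          intro h8
          rw [(hjg b hb).1 (u n)] at h8
          rcases mul_eq_zero.1 h8 with h9 | h9
          · exact absurd h9 (by positivity)
          · rw [h9] at h5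
            revert h5
            decide
        have := sq_pos_of_ne_zero h7
        linarith
    calc w b * (1 - chi (n ⬝ᵥ red (g b))) ≤ w b * (2 * c b (u n) ^ 2) :=
          mul_le_mul_of_nonneg_left h3 h0
      _ = 2 * (w b * c b (u n) ^ 2) := by ring
  have hall : ∀ n : Fin r → ZMod 2, 0 ≤ ∑ a ∈ T, 1 * (1 - chi (n ⬝ᵥ red (f a))) -
      ∑ b ∈ S, w b * (1 - chi (n ⬝ᵥ red (g b))) := by
    intro n
    rw [sub_nonneg]
    exact le_trans (sum_le_sum fun b hb => hterm n b hb) (hT n)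
  have hsum := four_sum T S (fun _ => 1) w (fun a => red (f a)) (fun b => red (g b)) hodd' hg'
  have h2 : 0 ≤ (2 : ℤ) ^ r * (∑ a ∈ T, (1 : ℤ) - ∑ b ∈ S, w b) := by
    rw [← hsum]
    exact sum_nonneg fun n _ => hall n
  have h3 := nonneg_of_mul_nonneg_right h2 hpow
  rw [sum_const, nsmul_eq_mul, mul_one] at h3
  linarith

variable {E : Type} [Fintype E] [DecidableEq E]

/-- The inequality. -/
theorem count {L : Submodule ℤ (E → ℤ)} {S I : Finset E} (hI : I ⊆ S)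
    {ℓ : E → ℕ} (hpos : ∀ e, 0 < ℓ e) (hℓ : ∀ e ∈ I, 2 ≤ ℓ e)
    (hL : ∀ x ∈ L, ∃ u z, u ∈ L ∧ z ∈ L ∧ x = u + (2 : ℤ) • z ∧ IsUnit' u)
    (hodd : ∀ e, ∃ x ∈ L, Odd (x e))
    (hpar : ∀ e ∈ I, ∀ f ∈ I, e ≠ f → ℓ e = 2 → ℓ f = 2 → ∃ x ∈ L, Odd (x e + x f))
    {ι : Type} [Fintype ι] [DecidableEq ι] {φ : blowup L S ℓ →ₗ[ℤ] (ι → ℤ)}
    (hφ : ∀ a b, φ a ⬝ᵥ φ b = (a : (Σ e, Fin (ℓ e)) → ℤ) ⬝ᵥ (b : (Σ e, Fin (ℓ e)) → ℤ))
    (hco : ∀ o, ∃ z, φ z o ≠ 0) :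
    ∑ e ∈ I, ℓ e ≤ Fintype.card ι ∧ ∃ Z ⊆ I,
      Module.finrank ℤ (blowup L S ℓ) + Z.card ≤
        Fintype.card ι + Module.finrank ℤ (within L Z) ∧
      ∑ e ∈ I \ Z, ((ℓ e : ℤ) - 2) + Fintype.card ι ≤ ∑ e, (ℓ e : ℤ) := by
  classical
  obtain ⟨F⟩ := exists_frame' hI hpos hℓ hodd hpar φ hφ
  have hoff := F.off_card
  let Z : Finset E := univ.filter fun e => ∃ h : e ∈ I, F.γ ⟨e, h⟩ = 0
  have hZmem : ∀ e, e ∈ Z ↔ ∃ h : e ∈ I, F.γ ⟨e, h⟩ = 0 := fun e => by simp [Z]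
  have hZI : Z ⊆ I := fun e he => ((hZmem e).1 he).1
  refine ⟨by omega, Z, hZI, F.card_vanishing hI hpos hφ Z hZI fun e he => ((hZmem e).1 he).2, ?_⟩
  let T : Finset (Σ e, Fin (ℓ e)) := univ.filter fun k => k.1 ∉ I
  have hTcard : (T.card : ℤ) = ∑ e ∈ Iᶜ, (ℓ e : ℤ) := by
    have h1 : (T.card : ℤ) = ∑ k : Σ e, Fin (ℓ e), if k.1 ∉ I then (1 : ℤ) else 0 := by
      rw [card_eq_sum_ones, sum_filter]
      push_cast
      rfl
    rw [h1, Fintype.sum_sigma, ← sum_add_sum_compl I]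
    have h2 : ∑ e ∈ I, ∑ i : Fin (ℓ e), (if (⟨e, i⟩ : Σ e, Fin (ℓ e)).1 ∉ I then (1 : ℤ) else 0)
        = 0 := sum_eq_zero fun e he => sum_eq_zero fun i _ => if_neg fun h => h he
    rw [h2, zero_add]
    apply sum_congr rfl
    intro e he
    rw [sum_congr rfl fun i _ => if_pos (mem_compl.1 he), sum_const, card_univ, Fintype.card_fin,
      nsmul_eq_mul, mul_one]
  let B : Finset (I ⊕ ι) := (univ.filter fun e : I => F.γ e ≠ 0).disjSum F.off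
  have key := average (M := blowup L S ℓ) (T := T) (S := B) (f := cv L S ℓ)
    (c := Sum.elim F.γ fun o => LinearMap.proj o ∘ₗ φ)
    (w := Sum.elim (fun e : I => (ℓ e : ℤ) - 2) fun _ => 1)
    (P := fun z => ∀ e ∈ S, U1 (xs L S ℓ e z))
    (by
      intro z
      obtain ⟨u, v, h1, h2, h3⟩ := blow_unit hL z
      exact ⟨u, v, h1, fun k _ => h2 k, h3⟩)
    (by
      intro z hz
      rw [sum_disjSum]
      simp only [Sum.elim_inl, Sum.elim_inr, one_mul]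
      have h1 := F.dot hφ z z
      have h2 : (z : (Σ e, Fin (ℓ e)) → ℤ) ⬝ᵥ (z : (Σ e, Fin (ℓ e)) → ℤ) =
          ∑ e : I, ∑ i, (z : (Σ e, Fin (ℓ e)) → ℤ) ⟨e, i⟩ * (z : (Σ e, Fin (ℓ e)) → ℤ) ⟨e, i⟩ +
          ∑ k ∈ T, cv L S ℓ k z ^ 2 := by
        rw [sum_filter, Fintype.sum_sigma, ← sum_add_sum_compl I, dotProduct, Fintype.sum_sigma,
          ← sum_add_sum_compl I]
        have h3 : ∑ e ∈ I, ∑ i : Fin (ℓ e), (if (⟨e, i⟩ : Σ e, Fin (ℓ e)).1 ∉ I then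
            cv L S ℓ ⟨e, i⟩ z ^ 2 else 0) = 0 :=
          sum_eq_zero fun e he => sum_eq_zero fun i _ => if_neg fun h => h he
        rw [h3, zero_add, ← sum_coe_sort I]
        congr 1
        apply sum_congr rfl
        intro e he
        apply sum_congr rfl
        intro i _
        rw [if_pos (mem_compl.1 he), cv_apply, sq]
      rw [h2] at h1
      have h3 : ∑ e : I, (∑ i, (z : (Σ e, Fin (ℓ e)) → ℤ) ⟨e, i⟩ *
          (z : (Σ e, Fin (ℓ e)) → ℤ) ⟨e, i⟩ + F.γ e z * xs L S ℓ e z + F.γ e z * xs L S ℓ e z +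
          ℓ e * (F.γ e z * F.γ e z)) = ∑ e : I, ∑ i, (z : (Σ e, Fin (ℓ e)) → ℤ) ⟨e, i⟩ *
          (z : (Σ e, Fin (ℓ e)) → ℤ) ⟨e, i⟩ +
          ∑ e : I, ((ℓ e : ℤ) * F.γ e z ^ 2 + 2 * xs L S ℓ e z * F.γ e z) := by
        rw [← sum_add_distrib]
        exact sum_congr rfl fun e _ => by ring
      rw [h3] at h1
      have h4 : ∑ e : I with F.γ e ≠ 0, ((ℓ e : ℤ) - 2) * F.γ e z ^ 2 ≤
          ∑ e : I, ((ℓ e : ℤ) * F.γ e z ^ 2 + 2 * xs L S ℓ e z * F.γ e z) := by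
        have h5 : ∑ e : I with F.γ e ≠ 0, ((ℓ e : ℤ) - 2) * F.γ e z ^ 2 ≤
            ∑ e : I, ((ℓ e : ℤ) - 2) * F.γ e z ^ 2 := by
          apply sum_le_sum_of_subset_of_nonneg (filter_subset _ _)
          intro e _ _
          have := hℓ e e.2
          exact mul_nonneg (by omega) (sq_nonneg _)
        refine h5.trans (sum_le_sum fun e _ => ?_)
        have h6 := term_aux' (c := F.γ e z) (hz e (hI e.2))
        nlinarith
      have h5 : ∑ o ∈ F.off, ((LinearMap.proj o ∘ₗ φ) z : ℤ) ^ 2 = ∑ o ∈ F.off, φ z o * φ z o :=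
        sum_congr rfl fun o _ => sq _
      rw [h5]
      linarith)
    (by
      rintro (e | o) _
      · have := hℓ e e.2
        simp only [Sum.elim_inl]
        omega
      · exact zero_le_one)
    (by
      rintro (e | o) hb
      · rw [inl_mem_disjSum, mem_filter] at hb
        exact hb.2
      · intro h
        obtain ⟨z, hz⟩ := hco o
        exact hz (LinearMap.congr_fun h z))
    (by
      rintro ⟨e, i⟩ _
      obtain ⟨x, hx, hxe⟩ := hodd e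
      refine ⟨⟨_, mem_place S hx fun f => if h : f = e then h ▸ i else ⟨0, hpos f⟩⟩, ?_⟩
      rw [cv_apply]
      change Odd (if e ∈ S ∧ i ≠ (if h : e = e then h ▸ i else ⟨0, hpos e⟩) then 0 else x e)
      rw [dif_pos rfl, if_neg (fun h => h.2 rfl)]
      exact hxe)
  rw [sum_disjSum] at key
  simp only [Sum.elim_inl, Sum.elim_inr] at key
  rw [hTcard, sum_const, nsmul_eq_mul, mul_one] at key
  have h1 : ∑ e : I with F.γ e ≠ 0, ((ℓ e : ℤ) - 2) = ∑ e ∈ I \ Z, ((ℓ e : ℤ) - 2) := by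
    have h2 : ∑ e ∈ I \ Z, ((ℓ e : ℤ) - 2) = ∑ e ∈ I, if e ∉ Z then ((ℓ e : ℤ) - 2) else 0 := by
      rw [← sum_filter, filter_notMem_eq_sdiff]
    rw [h2, ← sum_coe_sort I, sum_filter]
    apply sum_congr rfl
    intro e _
    have h3 : F.γ e ≠ 0 ↔ (e : E) ∉ Z := by
      rw [hZmem]
      constructor
      · rintro h ⟨_, h'⟩
        exact h h'
      · intro h h'
        exact h ⟨e.2, h'⟩
    simp only [h3]
  rw [h1] at key
  have h2 := sum_add_sum_compl I fun e => (ℓ e : ℤ)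
  have h3 : (F.off.card : ℤ) + ∑ e ∈ I, (ℓ e : ℤ) = Fintype.card ι := by
    exact_mod_cast hoff
  linarith

end Pool.Agent.H754.Twist
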