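import Pool.Agent.H754.Twist.Shift
import Pool.Agent.H762.MX.Main

/-!
Both embeddings: the long classes are permuted, their lengths may be changed simultaneously.
-/

set_option autoImplicit false
set_option linter.unusedSectionVars false

namespace Pool.Agent.H754.Twist

open Finset Matrix
open Pool.Agent.H762.TG (Multigraph IsUnit' IsIsometry)
open Pool.Agent.H762.MX

variable {V E : Type} [Fintype V] [Fintype E] [DecidableEq V] [DecidableEq E]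

/-- Both lattices of the graph are embedded in standard lattices of the same rank. -/
def BothEmbed (G : Multigraph V E) (S : Finset E) (ℓ : E → ℕ) : Prop :=
  StdEmbeds (blowup G.cuts S ℓ) ∧ StdEmbeds (blowup G.flows Sᶜ ℓ)

theorem odd_of_span {L : Submodule ℤ (E → ℤ)} (hs : ∀ x ∈ L, x ∈ Submodule.span ℤ
    {d | d ∈ L ∧ IsUnit' d ∧ ∀ f, x f = 0 → d f = 0}) {e : E} (h : ∃ x ∈ L, x e ≠ 0) :
    ∃ x ∈ L, Odd (x e) := by
  obtain ⟨x, hx, hxe⟩ := h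
  obtain ⟨u, hu, hun, -, hue⟩ := exists_unit_of_span (hs x hx) hxe
  exact ⟨u, hu, odd_of_unit hun hue⟩

theorem dist_of_span {L : Submodule ℤ (E → ℤ)} (hs : ∀ x ∈ L, x ∈ Submodule.span ℤ
    {d | d ∈ L ∧ IsUnit' d ∧ ∀ f, x f = 0 → d f = 0}) {P Q : E}
    (h : ¬ ∀ x ∈ L, (x P = 0 ↔ x Q = 0)) :
    ∃ x ∈ L, ((x P : ℤ) : ZMod 2) ≠ ((x Q : ℤ) : ZMod 2) := by
  push Not at h
  obtain ⟨x, hx, h4⟩ := h
  rcases h4 with ⟨h5, h6⟩ | ⟨h5, h6⟩
  · obtain ⟨u, hu, hun, hv, hue⟩ := exists_unit_of_span (hs x hx) h6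
    exact ⟨u, hu, (cast_ne hun hue (hv _ h5)).symm⟩
  · obtain ⟨u, hu, hun, hv, hue⟩ := exists_unit_of_span (hs x hx) h5
    exact ⟨u, hu, cast_ne hun hue (hv _ h6)⟩

/-- The consequence of `half` which we need. -/
def Matched (L : Submodule ℤ (E → ℤ)) (S I J : Finset E) (ℓ : E → ℕ) (D q : ℤ) : Prop :=
  ∃ π : I → J, Function.Surjective π ∧ (∀ e : I, (ℓ e : ℤ) - 2 ≤ ℓ (π e) + q + D) ∧
    (∀ f : J, (ℓ f : ℤ) ≤ D + ∑ e : I with π e = f, ((ℓ e : ℤ) - 2)) ∧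
    (Function.Injective π → ∀ ℓ' : E → ℕ, (∀ e, 0 < ℓ' e) → (∀ e, e ∉ I ∪ J → ℓ e = ℓ' e) →
      (∀ e : I, (ℓ' (π e) : ℤ) - ℓ (π e) = ℓ' e - ℓ e) → StdEmbeds (blowup L S ℓ'))

theorem side {L : Submodule ℤ (E → ℤ)} {S I J : Finset E} (hI : I ⊆ S) (hJ : ∀ e ∈ J, e ∉ S)
    {ℓ : E → ℕ} (hpos : ∀ e, 0 < ℓ e) (hℓ : ∀ e ∈ I, 5 ≤ ℓ e)
    (hL : ∀ x ∈ L, ∃ u z, u ∈ L ∧ z ∈ L ∧ x = u + (2 : ℤ) • z ∧ IsUnit' u)
    (hs : ∀ x ∈ L, x ∈ Submodule.span ℤ {d | d ∈ L ∧ IsUnit' d ∧ ∀ f, x f = 0 → d f = 0})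
    (hne : ∀ e, ∃ x ∈ L, x e ≠ 0)
    (hdist : ∀ e ∈ J, ∀ f ∈ J, (∀ x ∈ L, (x e = 0 ↔ x f = 0)) → e = f)
    (hF : ∀ e ∈ I, ∃ y : E → ℤ, (∀ x ∈ L, x ⬝ᵥ y = 0) ∧ y e ≠ 0)
    (hE : StdEmbeds (blowup L S ℓ)) {D q : ℤ}
    (hD : D = ∑ e ∈ J, (ℓ e : ℤ) + q - ∑ e ∈ I, ((ℓ e : ℤ) - 2))
    (hq : q = ∑ e ∈ (I ∪ J)ᶜ, (ℓ e : ℤ)) :
    0 ≤ D ∧ ((∀ e ∈ I, D + q < ℓ e - 2) → (∀ e ∈ J, D < ℓ e) → Matched L S I J ℓ D q) := by
  obtain ⟨φ, hφ⟩ := hE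
  obtain ⟨f, hf⟩ := toLin hφ
  have hr : Module.finrank ℤ (blowup L S ℓ) =
      Fintype.card (Fin (Module.finrank ℤ (blowup L S ℓ))) := (Fintype.card_fin _).symm
  obtain ⟨h1, h2⟩ := half hI hJ hpos hℓ hL (fun e => odd_of_span hs (hne e))
    (fun e he f hf hef => dist_of_span hs fun h => hef (hdist e he f hf h)) hF hf hr hD hq
  refine ⟨h1, fun h3 h4 => ?_⟩
  obtain ⟨F, π, η, h5, h6, h7, h8, h9⟩ := h2 h3 h4
  exact ⟨π, h5, h8, h9, fun hinj ℓ' hpos' hoff hsh =>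
    shift hI hJ hpos hpos' hoff hf hr F ⟨hinj, h5⟩ h6 h7 hsh⟩

/-- The long classes are permuted. -/
theorem permuted (G : Multigraph V E) (S R : Finset E) (ℓ : E → ℕ)
    (hG : ∀ e, (∃ x ∈ G.cuts, x e ≠ 0) ∧ ∃ y ∈ G.flows, y e ≠ 0)
    (hser : ∀ e ∈ S ∩ R, ∀ f ∈ S ∩ R, G.Series e f → e = f)
    (hpar : ∀ e ∈ R \ S, ∀ f ∈ R \ S, Parallel G e f → e = f)
    (hpos : ∀ e, 0 < ℓ e) {n : ℕ} (hn : n = R.card + ∑ e ∈ Rᶜ, ℓ e)
    (hlong : ∀ e ∈ R, 3 * n + 3 ≤ ℓ e) (h : BothEmbed G S ℓ) :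
    ∃ σ : Equiv.Perm E, (∀ e, e ∉ R → σ e = e) ∧ (∀ e ∈ R, σ e ∈ R ∧ (e ∈ S ↔ σ e ∉ S)) ∧
      (∀ e ∈ R, |(ℓ (σ e) : ℤ) - ℓ e| ≤ 3 * n + 2) ∧
      ∀ ℓ' : E → ℕ, (∀ e, 0 < ℓ' e) → (∀ e, e ∉ R → ℓ' e = ℓ e) →
        (∀ e ∈ R, (ℓ' (σ e) : ℤ) - ℓ' e = ℓ (σ e) - ℓ e) → BothEmbed G S ℓ' := by
  classical
  obtain ⟨hE, hE'⟩ := h
  set I := S ∩ R with hI
  set J := R \ S with hJ
  have hIS : I ⊆ S := inter_subset_left
  have hJS : ∀ e ∈ J, e ∉ S := fun e he => (mem_sdiff.1 he).2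
  have hJS' : J ⊆ Sᶜ := fun e he => mem_compl.2 (hJS e he)
  have hIS' : ∀ e ∈ I, e ∉ Sᶜ := fun e he h => (mem_compl.1 h) (hIS he)
  have hIR : ∀ e, e ∈ I ∪ J ↔ e ∈ R := by
    intro e
    rw [mem_union, hI, hJ, mem_inter, mem_sdiff]
    tauto
  have hIJR : I ∪ J = R := Finset.ext hIR
  have hJIR : J ∪ I = R := by rw [union_comm, hIJR]
  have hdisj : Disjoint I J := by
    rw [disjoint_left]
    intro e he he'
    exact hJS e he' (hIS he)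
  have hcardR : I.card + J.card = R.card := by rw [← card_union_of_disjoint hdisj, hIJR]
  have hn1 : ∀ e ∈ R, 1 ≤ n := by
    intro e he
    have := card_pos.2 ⟨e, he⟩
    omega
  have h5 : ∀ e ∈ R, 5 ≤ ℓ e := fun e he => by
    have := hn1 e he
    have := hlong e he
    omega
  have hIinR : ∀ e ∈ I, e ∈ R := fun e he => (mem_inter.1 he).2
  have hJinR : ∀ e ∈ J, e ∈ R := fun e he => (mem_sdiff.1 he).1
  have hdot : ∀ x ∈ G.cuts, ∀ y ∈ G.flows, x ⬝ᵥ y = 0 := fun x hx y hy =>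
    G.cuts_dot_flows hx hy
  set q : ℤ := ∑ e ∈ Rᶜ, (ℓ e : ℤ) with hq
  have hnq : (n : ℤ) = R.card + q := by rw [hn, hq]; push_cast; rfl
  have hq0 : 0 ≤ q := sum_nonneg fun e _ => Int.natCast_nonneg _
  set D : ℤ := ∑ e ∈ J, (ℓ e : ℤ) + q - ∑ e ∈ I, ((ℓ e : ℤ) - 2) with hD
  set D' : ℤ := ∑ e ∈ I, (ℓ e : ℤ) + q - ∑ e ∈ J, ((ℓ e : ℤ) - 2) with hD'
  obtain ⟨a1, a2⟩ := side (L := G.cuts) hIS hJS hpos (fun e he => h5 e (hIinR e he))
    (cut_unit_mod_two G) (fun x hx => G.cut_mem_span hx) (fun e => (hG e).1)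
    (fun e he f hf h => hpar e he f hf h)
    (fun e _ => by
      obtain ⟨y, hy, hye⟩ := (hG e).2
      exact ⟨y, fun x hx => hdot x hx y hy, hye⟩) hE (D := D) (q := q) hD (by rw [hIJR])
  obtain ⟨b1, b2⟩ := side (L := G.flows) hJS' hIS' hpos (fun e he => h5 e (hJinR e he))
    (fun x hx => by
      obtain ⟨u, z, h3, h4, h5, h6⟩ := G.exists_unit_mod_two _ x hx le_rfl
      exact ⟨u, z, h3, h4, h5, h6⟩)
    (fun x hx => G.flow_mem_span _ x hx le_rfl) (fun e => (hG e).2)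
    (fun e he f hf h => hser e he f hf h)
    (fun e _ => by
      obtain ⟨x, hx, hxe⟩ := (hG e).1
      exact ⟨x, fun y hy => by rw [dotProduct_comm]; exact hdot x hx y hy, hxe⟩) hE' (D := D')
    (q := q) hD' (by rw [hJIR])
  have s1 : ∑ e ∈ I, ((ℓ e : ℤ) - 2) = ∑ e ∈ I, (ℓ e : ℤ) - 2 * I.card := by
    rw [sum_sub_distrib, sum_const, nsmul_eq_mul]
    ring
  have s2 : ∑ e ∈ J, ((ℓ e : ℤ) - 2) = ∑ e ∈ J, (ℓ e : ℤ) - 2 * J.card := by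
    rw [sum_sub_distrib, sum_const, nsmul_eq_mul]
    ring
  have hcardR' : (I.card : ℤ) + J.card = R.card := by exact_mod_cast hcardR
  have hDD : D + D' = 2 * n := by
    rw [hD, hD', s1, s2, hnq]
    linarith
  have hlong' : ∀ e ∈ R, 3 * (n : ℤ) + 3 ≤ ℓ e := fun e he => by exact_mod_cast hlong e he
  have hqn : q ≤ n := by
    rw [hnq]
    have : (0 : ℤ) ≤ R.card := Int.natCast_nonneg _
    linarith
  obtain ⟨π, p1, p2, p3, p4⟩ := a2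
    (fun e he => by have := hlong' e (hIinR e he); linarith)
    (fun e he => by have := hlong' e (hJinR e he); linarith)
  obtain ⟨ρ, r1, r2, r3, r4⟩ := b2
    (fun e he => by have := hlong' e (hJinR e he); linarith)
    (fun e he => by have := hlong' e (hIinR e he); linarith)
  have hc1 : Fintype.card J ≤ Fintype.card I := Fintype.card_le_of_surjective π p1
  have hc2 : Fintype.card I ≤ Fintype.card J := Fintype.card_le_of_surjective ρ r1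
  have hπ : Function.Bijective π :=
    (Fintype.bijective_iff_surjective_and_card π).2 ⟨p1, le_antisymm hc2 hc1⟩
  have hρ : Function.Bijective ρ :=
    (Fintype.bijective_iff_surjective_and_card ρ).2 ⟨r1, le_antisymm hc1 hc2⟩
  have hπd : ∀ e : I, |(ℓ (π e) : ℤ) - ℓ e| ≤ 3 * n + 2 := by
    intro e
    have h1 := p2 e
    have h2 := p3 (π e)
    have h3 : ∑ e' : I with π e' = π e, ((ℓ e' : ℤ) - 2) = (ℓ e : ℤ) - 2 := by
      have h4 : (univ.filter fun e' : I => π e' = π e) = {e} := by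
        ext e'
        simp only [mem_filter, mem_univ, true_and, mem_singleton]
        exact hπ.1.eq_iff
      rw [h4, sum_singleton]
    rw [h3] at h2
    rw [abs_le]
    constructor <;> linarith
  have hρd : ∀ e : J, |(ℓ (ρ e) : ℤ) - ℓ e| ≤ 3 * n + 2 := by
    intro e
    have h1 := r2 e
    have h2 := r3 (ρ e)
    have h3 : ∑ e' : J with ρ e' = ρ e, ((ℓ e' : ℤ) - 2) = (ℓ e : ℤ) - 2 := by
      have h4 : (univ.filter fun e' : J => ρ e' = ρ e) = {e} := by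
        ext e'
        simp only [mem_filter, mem_univ, true_and, mem_singleton]
        exact hρ.1.eq_iff
      rw [h4, sum_singleton]
    rw [h3] at h2
    rw [abs_le]
    constructor <;> linarith
  -- the permutation
  let s : E → E := fun e => if h : e ∈ I then π ⟨e, h⟩ else if h : e ∈ J then ρ ⟨e, h⟩ else e
  have sI : ∀ e : I, s e = π e := fun e => dif_pos e.2
  have sJ : ∀ e : J, s e = ρ e := fun e => by
    have : (e : E) ∉ I := disjoint_right.1 hdisj e.2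
    simp only [s]
    rw [dif_neg this, dif_pos e.2]
  have sO : ∀ e, e ∉ R → s e = e := fun e he => by
    have h1 : e ∉ I := fun h => he (hIinR e h)
    have h2 : e ∉ J := fun h => he (hJinR e h)
    simp only [s]
    rw [dif_neg h1, dif_neg h2]
  have hcases : ∀ e, e ∈ I ∨ e ∈ J ∨ e ∉ R := by
    intro e
    by_cases he : e ∈ R
    · rcases mem_union.1 ((hIR e).2 he) with h | h
      · exact Or.inl h
      · exact Or.inr (Or.inl h)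
    · exact Or.inr (Or.inr he)
  have hsurj : Function.Surjective s := by
    intro e
    rcases hcases e with he | he | he
    · obtain ⟨f, hf⟩ := hρ.2 ⟨e, he⟩
      exact ⟨f, by rw [sJ, hf]⟩
    · obtain ⟨f, hf⟩ := hπ.2 ⟨e, he⟩
      exact ⟨f, by rw [sI, hf]⟩
    · exact ⟨e, sO e he⟩
  have hbij : Function.Bijective s := Finite.surjective_iff_bijective.1 hsurj
  refine ⟨Equiv.ofBijective s hbij, fun e he => sO e he, ?_, ?_, ?_⟩
  · intro e he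
    change s e ∈ R ∧ (e ∈ S ↔ s e ∉ S)
    rcases mem_union.1 ((hIR e).2 he) with h | h
    · rw [sI ⟨e, h⟩]
      exact ⟨hJinR _ (π ⟨e, h⟩).2, ⟨fun _ => hJS _ (π ⟨e, h⟩).2, fun _ => hIS h⟩⟩
    · rw [sJ ⟨e, h⟩]
      exact ⟨hIinR _ (ρ ⟨e, h⟩).2, ⟨fun h' => absurd h' (hJS e h),
        fun h' => absurd (hIS (ρ ⟨e, h⟩).2) h'⟩⟩
  · intro e he
    change |(ℓ (s e) : ℤ) - ℓ e| ≤ 3 * n + 2
    rcases mem_union.1 ((hIR e).2 he) with h | h
    · rw [sI ⟨e, h⟩]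
      exact hπd ⟨e, h⟩
    · rw [sJ ⟨e, h⟩]
      exact hρd ⟨e, h⟩
  · intro ℓ' hpos' hoff hsh
    refine ⟨p4 hπ.1 ℓ' hpos' (fun e he => (hoff e (fun h => he ((hIR e).2 h))).symm)
      (fun e => ?_), r4 hρ.1 ℓ' hpos' (fun e he => (hoff e (fun h => he ?_)).symm) (fun e => ?_)⟩
    · have h1 := hsh e (hIinR e e.2)
      change (ℓ' (s e) : ℤ) - ℓ' e = ℓ (s e) - ℓ e at h1
      rw [sI] at h1
      linarith
    · rw [hJIR]
      exact h
    · have h1 := hsh e (hJinR e e.2)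
      change (ℓ' (s e) : ℤ) - ℓ' e = ℓ (s e) - ℓ e at h1
      rw [sJ] at h1
      linarith

end Pool.Agent.H754.Twist
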