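import Pool.Agent.H754.Twist.Average
import Pool.Agent.H754.Twist.Pairs

/-!
The inequalities for graphs.
-/

set_option autoImplicit false
set_option linter.unusedSectionVars false

namespace Pool.Agent.H754.Twist

open Finset Matrix
open Pool.Agent.H762.TG (Multigraph IsUnit' IsIsometry)
open Pool.Agent.H762.MX

theorem remove_coord {ι : Type} [Fintype ι] {M : Submodule ℤ (ι → ℤ)} {n : ℕ}
    {φ : (ι → ℤ) → Fin (n + 1) → ℤ} (h : IsIsometry M φ) (o : Fin (n + 1))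
    (ho : ∀ z ∈ M, φ z o = 0) : EmbedsIn M n := by
  refine ⟨fun z i => φ z (o.succAbove i), fun x hx y hy => ⟨?_, ?_⟩⟩
  · funext i
    have h1 := congrFun (h x hx y hy).1 (o.succAbove i)
    exact h1
  · rw [← (h x hx y hy).2, dotProduct, dotProduct, Fin.sum_univ_succAbove _ o, ho x hx, zero_mul,
      zero_add]

/-- an embedding without superfluous coordinates -/
theorem exists_min {ι : Type} [Fintype ι] {M : Submodule ℤ (ι → ℤ)} : ∀ {n : ℕ},
    EmbedsIn M n → ∃ m ≤ n, ∃ φ : M →ₗ[ℤ] (Fin m → ℤ),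
      (∀ a b, φ a ⬝ᵥ φ b = (a : ι → ℤ) ⬝ᵥ (b : ι → ℤ)) ∧ ∀ o, ∃ z, φ z o ≠ 0 := by
  intro n
  induction n with
  | zero =>
    rintro ⟨φ, hφ⟩
    obtain ⟨f, hf⟩ := toLin hφ
    exact ⟨0, le_rfl, f, hf, fun o => o.elim0⟩
  | succ n ih =>
    rintro ⟨φ, hφ⟩
    by_cases h : ∀ o, ∃ z ∈ M, φ z o ≠ 0
    · refine ⟨n + 1, le_rfl,
        (AddMonoidHom.mk' (fun x : M => φ x) fun x y => (hφ x x.2 y y.2).1).toIntLinearMap,
        fun a b => (hφ a a.2 b b.2).2, fun o => ?_⟩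
      obtain ⟨z, hz, hzo⟩ := h o
      exact ⟨⟨z, hz⟩, hzo⟩
    · push Not at h
      obtain ⟨o, ho⟩ := h
      obtain ⟨m, hm, f, hf⟩ := ih (remove_coord hφ o ho)
      exact ⟨m, by omega, f, hf⟩

variable {V E : Type} [Fintype V] [Fintype E] [DecidableEq V] [DecidableEq E]

theorem bigon_general (G : Multigraph V E) (S I : Finset E) (ℓ : E → ℕ) (hI : I ⊆ S)
    (hpos : ∀ e, 0 < ℓ e) (hℓ : ∀ e ∈ I, 2 ≤ ℓ e) (hG : ∀ e, ∃ x ∈ G.cuts, x e ≠ 0)
    (hpar : ∀ e ∈ I, ∀ f ∈ I, e ≠ f → ℓ e = 2 → ℓ f = 2 → ¬ Parallel G e f) (k : ℕ)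
    (hE : EmbedsIn (blowup G.cuts S ℓ) (Module.finrank ℤ (blowup G.cuts S ℓ) + k)) :
    ∑ e ∈ I, ℓ e ≤ Module.finrank ℤ (blowup G.cuts S ℓ) + k ∧
    ∃ Z ⊆ I, Z.card ≤ k + Module.finrank ℤ (within G.cuts Z) ∧
      Module.finrank ℤ (blowup G.cuts S ℓ) + ∑ e ∈ I \ Z, (ℓ e - 2) + Z.card ≤
        ∑ e, ℓ e + Module.finrank ℤ (within G.cuts Z) := by
  classical
  obtain ⟨m, hm, φ, hφ, hco⟩ := exists_min hE
  obtain ⟨h1, Z, h2, h3, h4⟩ := count (L := G.cuts) hI hpos hℓ (cut_unit_mod_two G)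
    (fun e => odd_of_span (fun x hx => G.cut_mem_span hx) (hG e))
    (fun e he f hf hef h h' => by
      obtain ⟨x, hx, hne⟩ := dist_of_span (fun x hx => G.cut_mem_span hx)
        (hpar e he f hf hef h h')
      refine ⟨x, hx, ?_⟩
      rcases Int.even_or_odd (x e) with h1 | h1 <;> rcases Int.even_or_odd (x f) with h2 | h2
      · exfalso
        apply hne
        rw [(ZMod.intCast_zmod_eq_zero_iff_dvd (x e) 2).2 (by exact_mod_cast h1.two_dvd),
          (ZMod.intCast_zmod_eq_zero_iff_dvd (x f) 2).2 (by exact_mod_cast h2.two_dvd)]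
      · exact h1.add_odd h2
      · exact h1.add_even h2
      · exfalso
        apply hne
        have h3 : (2 : ℤ) ∣ x e - x f := (h1.sub_odd h2).two_dvd
        have h4 : ((x e - x f : ℤ) : ZMod 2) = 0 :=
          (ZMod.intCast_zmod_eq_zero_iff_dvd _ 2).2 (by exact_mod_cast h3)
        rw [Int.cast_sub, sub_eq_zero] at h4
        exact h4) hφ hco
  rw [Fintype.card_fin] at h1 h3 h4
  refine ⟨by omega, Z, h2, by omega, ?_⟩
  have h5 : ∑ e ∈ I \ Z, ((ℓ e : ℤ) - 2) = ((∑ e ∈ I \ Z, (ℓ e - 2) : ℕ) : ℤ) := by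
    rw [Nat.cast_sum]
    apply sum_congr rfl
    intro e he
    have := hℓ e (mem_sdiff.1 he).1
    rw [Nat.cast_sub this]
    rfl
  rw [h5] at h4
  have h6 : ∑ e ∈ I \ Z, (ℓ e - 2) + m ≤ ∑ e, ℓ e := by
    have h7 : (((∑ e ∈ I \ Z, (ℓ e - 2) : ℕ) + m : ℕ) : ℤ) ≤ ((∑ e, ℓ e : ℕ) : ℤ) := by
      push_cast
      push_cast at h4
      exact h4
    exact_mod_cast h7
  omega

theorem within_bridge (G : Multigraph V E) (Z : Finset E)
    (hZ : ∀ e ∈ Z, ∃ y ∈ G.flows, y e ≠ 0) (h : Z.card ≤ Module.finrank ℤ (within G.cuts Z)) :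
    Z = ∅ := by
  classical
  by_contra hne
  obtain ⟨e, he⟩ := nonempty_iff_ne_empty.2 hne
  let Φ : within G.cuts Z →ₗ[ℤ] (Z → ℤ) :=
    LinearMap.pi fun f => LinearMap.proj (f : E) ∘ₗ (within G.cuts Z).subtype
  have hΦ : ∀ x f, Φ x f = (x : E → ℤ) f := fun _ _ => rfl
  have hinj : Function.Injective Φ := by
    intro x y hxy
    apply Subtype.ext
    funext f
    by_cases hf : f ∈ Z
    · exact congrFun hxy ⟨f, hf⟩
    · rw [x.2.2 f hf, y.2.2 f hf]
  have h1 : Module.finrank ℤ (within G.cuts Z) = Module.finrank ℤ (Z → ℤ) := by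
    apply le_antisymm
    · exact LinearMap.finrank_le_finrank_of_injective hinj
    · rw [Module.finrank_fintype_fun_eq_card, Fintype.card_coe]
      exact h
  obtain ⟨k, hk, x, hx⟩ := full_rank Φ hinj h1 (Pi.single ⟨e, he⟩ 1)
  obtain ⟨y, hy, hye⟩ := hZ e he
  have h2 := G.cuts_dot_flows x.2.1 hy
  have h3 : ∀ f, (x : E → ℤ) f = if f = e then k else 0 := by
    intro f
    by_cases hf : f ∈ Z
    · have h4 := congrFun hx ⟨f, hf⟩
      rw [hΦ] at h4
      rw [h4, Pi.smul_apply, Pi.single_apply, smul_eq_mul]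
      simp only [Subtype.mk.injEq]
      split_ifs <;> simp
    · rw [x.2.2 f hf, if_neg]
      rintro rfl
      exact hf he
  rw [dotProduct, sum_eq_single e (fun f _ hf => by rw [h3, if_neg hf, zero_mul])
    (fun h => absurd (mem_univ _) h), h3, if_pos rfl] at h2
  rcases mul_eq_zero.1 h2 with h4 | h4
  · exact hk h4
  · exact hye h4

end Pool.Agent.H754.Twist
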