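import Pool.Agent.H762.MX.Four

/-!
Functionals whose squares are dominated by the squares of coordinates: short and long classes.
-/

set_option autoImplicit false

namespace Pool.Agent.H754.Twist

open Finset Matrix
open Pool.Agent.H762.TG (chi sum_chi chi_add zmod_add_self)
open Pool.Agent.H762.MX

/-- the integer is `0`, `1` or `-1` -/
def U1 (a : ℤ) : Prop := a = 0 ∨ a = 1 ∨ a = -1

/-- Representatives of the classes of `M` modulo two. -/
theorem reps {M : Type} [AddCommGroup M] [Module.Free ℤ M] [Module.Finite ℤ M] {P : M → Prop}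
    (hM : ∀ x : M, ∃ u z, x = u + (2 : ℤ) • z ∧ P u) :
    ∃ (r : ℕ) (red : (M →ₗ[ℤ] ℤ) → Fin r → ZMod 2) (u : (Fin r → ZMod 2) → M),
      (∀ n, P (u n)) ∧
      (∀ n (g : M →ₗ[ℤ] ℤ), ((g (u n) : ℤ) : ZMod 2) = n ⬝ᵥ red g) ∧
      (∀ g h : M →ₗ[ℤ] ℤ, red g = red h ↔ ∀ x : M, ((g x : ℤ) : ZMod 2) = ((h x : ℤ) : ZMod 2)) ∧
      red 0 = 0 := by
  classical
  let b := Module.finBasis ℤ M
  have hrep : ∀ (g : M →ₗ[ℤ] ℤ) (x : M), ((g x : ℤ) : ZMod 2) =
      (fun i => ((b.repr x i : ℤ) : ZMod 2)) ⬝ᵥ (fun i => ((g (b i) : ℤ) : ZMod 2)) := by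
    intro g x
    conv_lhs => rw [← b.sum_repr x, map_sum]
    rw [Int.cast_sum, dotProduct]
    apply sum_congr rfl
    intro i _
    rw [map_smul, smul_eq_mul, Int.cast_mul]
  have hex : ∀ n : Fin (Module.finrank ℤ M) → ZMod 2, ∃ u : M, P u ∧
      ∀ g : M →ₗ[ℤ] ℤ, ((g u : ℤ) : ZMod 2) = n ⬝ᵥ (fun i => ((g (b i) : ℤ) : ZMod 2)) := by
    intro n
    let x : M := ∑ i, ((n i).val : ℤ) • b i
    obtain ⟨u, z, h1, hun⟩ := hM x
    refine ⟨u, hun, fun g => ?_⟩
    have h2 : ((g x : ℤ) : ZMod 2) = ((g u : ℤ) : ZMod 2) := by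
      rw [h1, map_add, map_smul, smul_eq_mul, Int.cast_add, Int.cast_mul]
      have : ((2 : ℤ) : ZMod 2) = 0 := by decide
      rw [this, zero_mul, add_zero]
    rw [← h2]
    change ((g (∑ i, ((n i).val : ℤ) • b i) : ℤ) : ZMod 2) = _
    rw [map_sum, Int.cast_sum, dotProduct]
    apply sum_congr rfl
    intro i _
    rw [map_smul, smul_eq_mul, Int.cast_mul]
    congr 1
    have : ∀ a : ZMod 2, (((a.val : ℕ) : ℤ) : ZMod 2) = a := by decide
    exact this _
  choose u hu1 hu2 using hex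
  refine ⟨_, fun g i => ((g (b i) : ℤ) : ZMod 2), u, hu1, hu2, ?_, ?_⟩
  · intro g h
    constructor
    · intro h1 x
      have h2 : (fun i => ((g (b i) : ℤ) : ZMod 2)) = fun i => ((h (b i) : ℤ) : ZMod 2) := h1
      rw [hrep, hrep, h2]
    · intro h1
      funext i
      exact h1 (b i)
  · funext i
    simp

theorem odd_part {M : Type} [AddCommGroup M] (x0 : M) : ∀ (n : ℕ) (c : M →ₗ[ℤ] ℤ),
    c x0 ≠ 0 → (c x0).natAbs ≤ n →
    ∃ (j : ℕ) (g : M →ₗ[ℤ] ℤ), (∀ x, c x = 2 ^ j * g x) ∧ ∃ x, Odd (g x) := by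
  intro n
  induction n with
  | zero => intro c h0 h1; omega
  | succ n ih =>
    intro c h0 h1
    by_cases h : ∃ x, Odd (c x)
    · exact ⟨0, c, fun x => by simp, h⟩
    · push Not at h
      have hev : ∀ x, 2 ∣ c x := fun x => even_iff_two_dvd.1 (Int.not_odd_iff_even.1 (h x))
      have h2 : ∀ x, c x = 2 * (c x / 2) := fun x => (Int.mul_ediv_cancel' (hev x)).symm
      let g : M →ₗ[ℤ] ℤ :=
        { toFun := fun x => c x / 2
          map_add' := fun x y => by
            have a := h2 (x + y)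
            have b := h2 x
            have d := h2 y
            rw [map_add] at a
            rw [map_add]
            omega
          map_smul' := fun k x => by
            have a := h2 (k • x)
            have b := h2 x
            rw [map_smul, smul_eq_mul] at a
            rw [map_smul, smul_eq_mul, RingHom.id_apply, smul_eq_mul]
            have e : 2 * (k * c x / 2) = 2 * (k * (c x / 2)) := by
              rw [← a]
              conv_lhs => rw [b]
              ring
            omega }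
      have hg : ∀ x, c x = 2 * g x := h2
      obtain ⟨j, g', hj, hodd⟩ := ih g (by intro h3; exact h0 (by rw [hg, h3, mul_zero]))
        (by have := hg x0; omega)
      exact ⟨j + 1, g', fun x => by rw [hg, hj, pow_succ]; ring, hodd⟩

theorem term_aux' {c u : ℤ} (hu : U1 u) : 0 ≤ c * (c + u) := by
  rcases hu with rfl | rfl | rfl
  · nlinarith [sq_nonneg c]
  · rcases le_or_gt 0 c with h | h
    · positivity
    · nlinarith
  · rcases le_or_gt 1 c with h | h
    · nlinarith
    · nlinarith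

theorem core {M : Type} [AddCommGroup M] [Module.Free ℤ M] [Module.Finite ℤ M]
    {A B : Type} [DecidableEq A] [DecidableEq B] {T T₀ : Finset A} (hT₀ : T₀ ⊆ T) {S : Finset B}
    {f : A → M →ₗ[ℤ] ℤ} {p : A → ℤ} {x c : B → M →ₗ[ℤ] ℤ} {ℓ : B → ℤ}
    (hM : ∀ z : M, ∃ u v, z = u + (2 : ℤ) • v ∧ ((∀ a ∈ T, U1 (f a u)) ∧ ∀ b ∈ S, U1 (x b u)))
    (h1 : ∀ z : M, ∑ b ∈ S, (ℓ b * c b z ^ 2 + 2 * x b z * c b z) ≤ ∑ a ∈ T, p a * f a z ^ 2)
    (hp : ∀ a ∈ T, 0 ≤ p a) (hℓ : ∀ b ∈ S, 2 ≤ ℓ b) (hc : ∀ b ∈ S, c b ≠ 0)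
    (hodd : ∀ a ∈ T, ∃ z, Odd (f a z))
    (hdist : ∀ a ∈ T₀, ∀ a' ∈ T₀, a ≠ a' →
      ∃ z, ((f a z : ℤ) : ZMod 2) ≠ ((f a' z : ℤ) : ZMod 2))
    {D q : ℤ} (hD : D = ∑ a ∈ T, p a - ∑ b ∈ S, (ℓ b - 2)) (hq : q = ∑ a ∈ T \ T₀, p a) :
    0 ≤ D ∧ ((∀ b ∈ S, D + q < ℓ b - 2) → (∀ a ∈ T₀, D < p a) →
      ∃ π : S → T₀, Function.Surjective π ∧
        (∀ b : S, (∀ z, c b z = f (π b) z) ∨ ∀ z, c b z = - f (π b) z) ∧
        (∀ b : S, ℓ b - 2 ≤ p (π b) + q + D) ∧
        ∀ a : T₀, p a ≤ D + ∑ b : S with π b = a, (ℓ b - 2)) := by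
  classical
  obtain ⟨r, red, u, hu, hu2, hred, hred0⟩ := reps hM
  have hu1 : ∀ n, ∀ a ∈ T, U1 (f a (u n)) := fun n => (hu n).1
  have hx1 : ∀ n, ∀ b ∈ S, U1 (x b (u n)) := fun n => (hu n).2
  have hpow := pow_pos' r
  -- nonzero classes
  have hne : ∀ g : M →ₗ[ℤ] ℤ, (∃ x, Odd (g x)) → red g ≠ 0 := by
    rintro g ⟨x, hx⟩ h0
    rw [← hred0, hred] at h0
    have h2 := h0 x
    rw [LinearMap.zero_apply, Int.cast_zero, cast_zero_iff] at h2
    exact (Int.not_even_iff_odd.2 hx) h2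
  have hchi : ∀ (n : Fin r → ZMod 2) (g : M →ₗ[ℤ] ℤ),
      (Even (g (u n)) ∧ chi (n ⬝ᵥ red g) = 1) ∨ (Odd (g (u n)) ∧ chi (n ⬝ᵥ red g) = -1) := by
    intro n g
    rw [← hu2]
    exact chi_cast _
  have hunit : ∀ (n : Fin r → ZMod 2), ∀ a ∈ T, 1 - chi (n ⬝ᵥ red (f a)) =
      2 * (f a (u n)) ^ 2 := by
    intro n a ha
    rcases hchi n (f a) with ⟨h2, h3⟩ | ⟨h2, h3⟩ <;> rw [h3] <;>
      rcases hu1 n a ha with h4 | h4 | h4 <;> rw [h4] at h2 ⊢ <;> revert h2 <;> decide
  have hodd' : ∀ a ∈ T, red (f a) ≠ 0 := fun a ha => hne _ (hodd a ha)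
  have hT : ∀ n : Fin r → ZMod 2, ∑ b ∈ S, 2 * (ℓ b * c b (u n) ^ 2 + 2 * x b (u n) * c b (u n)) ≤
      ∑ a ∈ T, p a * (1 - chi (n ⬝ᵥ red (f a))) := by
    intro n
    rw [← mul_sum]
    have h2 : ∑ a ∈ T, p a * (1 - chi (n ⬝ᵥ red (f a))) = 2 * ∑ a ∈ T, p a * f a (u n) ^ 2 := by
      rw [mul_sum]
      exact sum_congr rfl fun a ha => by rw [hunit n a ha]; ring
    rw [h2]
    have := h1 (u n)
    linarith
  have hparts : ∀ b, ∃ (j : ℕ) (g : M →ₗ[ℤ] ℤ), b ∈ S →
      ((∀ x, c b x = 2 ^ j * g x) ∧ ∃ x, Odd (g x)) := by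
    intro b
    by_cases hb : b ∈ S
    · obtain ⟨x, hx⟩ : ∃ x, c b x ≠ 0 := by
        by_contra hcon
        push Not at hcon
        exact hc b hb (LinearMap.ext hcon)
      obtain ⟨j, g, h2, h3⟩ := odd_part x _ (c b) hx le_rfl
      exact ⟨j, g, fun _ => ⟨h2, h3⟩⟩
    · exact ⟨0, 0, fun h => absurd h hb⟩
  choose j g hjg using hparts
  have hg' : ∀ b ∈ S, red (g b) ≠ 0 := fun b hb => hne _ (hjg b hb).2
  have hterm : ∀ (n : Fin r → ZMod 2), ∀ b ∈ S,
      ((ℓ b - 2) * 4 ^ j b) * (1 - chi (n ⬝ᵥ red (g b))) ≤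
      2 * (ℓ b * c b (u n) ^ 2 + 2 * x b (u n) * c b (u n)) := by
    intro n b hb
    have h2 := term_aux' (c := c b (u n)) (hx1 n b hb)
    have h3 : (ℓ b - 2) * 4 ^ j b * (1 - chi (n ⬝ᵥ red (g b))) ≤ 2 * ((ℓ b - 2) * c b (u n) ^ 2) := by
      rw [(hjg b hb).1 (u n), mul_pow, ← pow_mul, mul_comm (j b) 2, pow_mul]
      have h4 : (0 : ℤ) ≤ (ℓ b - 2) * 4 ^ j b :=
        mul_nonneg (by linarith [hℓ b hb]) (by positivity)
      norm_num
      rcases hchi n (g b) with ⟨-, h5⟩ | ⟨h5, h6⟩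
      · rw [h5]
        have := mul_nonneg h4 (sq_nonneg (g b (u n)))
        nlinarith
      · rw [h6]
        have h7 : 1 ≤ (g b (u n)) ^ 2 := by
          have : g b (u n) ≠ 0 := by
            intro h8
            rw [h8] at h5
            revert h5
            decide
          have := sq_pos_of_ne_zero this
          linarith
        nlinarith
    nlinarith
  have hall : ∀ n : Fin r → ZMod 2, 0 ≤ ∑ a ∈ T, p a * (1 - chi (n ⬝ᵥ red (f a))) -
      ∑ b ∈ S, ((ℓ b - 2) * 4 ^ j b) * (1 - chi (n ⬝ᵥ red (g b))) := by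
    intro n
    rw [sub_nonneg]
    exact le_trans (sum_le_sum fun b hb => hterm n b hb) (hT n)
  have hsum := four_sum T S p (fun b => (ℓ b - 2) * 4 ^ j b) (fun a => red (f a))
    (fun b => red (g b)) hodd' hg'
  have hpos : 0 ≤ ∑ a ∈ T, p a - ∑ b ∈ S, (ℓ b - 2) * 4 ^ j b := by
    have h2 : 0 ≤ (2 : ℤ) ^ r * (∑ a ∈ T, p a - ∑ b ∈ S, (ℓ b - 2) * 4 ^ j b) := by
      rw [← hsum]
      exact sum_nonneg fun n _ => hall n
    exact nonneg_of_mul_nonneg_right h2 hpow
  have hle4 : ∀ b ∈ S, (ℓ b - 2) ≤ (ℓ b - 2) * 4 ^ j b := by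
    intro b hb
    have h2 : (1 : ℤ) ≤ 4 ^ j b := one_le_pow₀ (by norm_num)
    nlinarith [hℓ b hb]
  have hD0 : 0 ≤ D := by
    have h2 := sum_le_sum hle4
    rw [hD]
    linarith
  refine ⟨hD0, fun hbig hbig' => ?_⟩
  have hq0 : 0 ≤ q := by
    rw [hq]
    exact sum_nonneg fun a ha => hp a (mem_sdiff.1 ha).1
  -- the exponents vanish
  have hj0 : ∀ b ∈ S, j b = 0 := by
    intro b hb
    by_contra hj
    have h2 : (4 : ℤ) ≤ 4 ^ j b := by
      calc (4 : ℤ) = 4 ^ 1 := by norm_num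
        _ ≤ 4 ^ j b := pow_le_pow_right₀ (by norm_num) (by omega)
    have h3 : ∑ f ∈ S, (ℓ f - 2) + (ℓ b - 2) ≤ ∑ f ∈ S, (ℓ f - 2) * 4 ^ j f := by
      rw [← sub_nonneg, ← sub_sub, ← sum_sub_distrib, sub_nonneg]
      refine le_trans ?_ (single_le_sum (f := fun f => (ℓ f - 2) * 4 ^ j f - (ℓ f - 2))
        (fun f hf => by have := hle4 f hf; linarith) hb)
      nlinarith [hℓ b hb]
    have := hbig b hb
    linarith
  have hcg : ∀ b ∈ S, ∀ x, c b x = g b x := by
    intro b hb x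
    rw [(hjg b hb).1 x, hj0 b hb, pow_zero, one_mul]
  have hcgL : ∀ b ∈ S, c b = g b := fun b hb => LinearMap.ext (hcg b hb)
  have hcred : ∀ b ∈ S, red (c b) ≠ 0 := fun b hb => by rw [hcgL b hb]; exact hg' b hb
  have hterm' : ∀ (n : Fin r → ZMod 2), ∀ b ∈ S, (ℓ b - 2) * (1 - chi (n ⬝ᵥ red (c b))) ≤
      2 * (ℓ b * c b (u n) ^ 2 + 2 * x b (u n) * c b (u n)) := by
    intro n b hb
    have h2 := hterm n b hb
    rwa [hj0 b hb, pow_zero, mul_one, ← hcgL b hb] at h2
  have hall' : ∀ n : Fin r → ZMod 2, 0 ≤ ∑ a ∈ T, p a * (1 - chi (n ⬝ᵥ red (f a))) -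
      ∑ b ∈ S, (ℓ b - 2) * (1 - chi (n ⬝ᵥ red (c b))) := by
    intro n
    rw [sub_nonneg]
    exact le_trans (sum_le_sum fun b hb => hterm' n b hb) (hT n)
  have hdist' : ∀ a ∈ T₀, ∀ a' ∈ T₀, red (f a) = red (f a') → a = a' := by
    intro a ha a' ha' h2
    by_contra hne
    obtain ⟨x, hx⟩ := hdist a ha a' ha' hne
    exact hx ((hred _ _).1 h2 x)
  have hfour : ∀ k : Fin r → ZMod 2, k ≠ 0 → ∀ s : ℤ, (s = 1 ∨ s = -1) →
      s * (∑ a ∈ T, (if red (f a) = k then p a else 0) -
        ∑ b ∈ S, (if red (c b) = k then ℓ b - 2 else 0)) ≤ D := by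
    intro k hk s hs
    have h2 := four T S p (fun b => ℓ b - 2) (fun a => red (f a)) (fun b => red (c b))
      hodd' hcred hall' hk hs
    have h3 : ∑ a ∈ T, p a * (1 - s * if red (f a) = k then 1 else 0) =
        ∑ a ∈ T, p a - s * ∑ a ∈ T, (if red (f a) = k then p a else 0) := by
      rw [mul_sum, ← sum_sub_distrib]
      exact sum_congr rfl fun P _ => by split_ifs <;> ring
    have h4 : ∑ b ∈ S, (ℓ b - 2) * (1 - s * if red (c b) = k then 1 else 0) =
        ∑ b ∈ S, (ℓ b - 2) - s * ∑ b ∈ S, (if red (c b) = k then ℓ b - 2 else 0) := by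
      rw [mul_sum, ← sum_sub_distrib]
      exact sum_congr rfl fun P _ => by split_ifs <;> ring
    rw [h3, h4] at h2
    rw [mul_sub]
    linarith
  -- the weight of a class
  have hle : ∀ k : Fin r → ZMod 2, (∀ a ∈ T₀, red (f a) ≠ k) →
      ∑ a ∈ T, (if red (f a) = k then p a else 0) ≤ q := by
    intro k hk
    rw [← sum_sdiff hT₀, hq]
    have h2 : ∑ a ∈ T₀, (if red (f a) = k then p a else 0) = 0 :=
      sum_eq_zero fun a ha => if_neg (hk a ha)
    rw [h2, add_zero]
    apply sum_le_sum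
    intro a ha
    split_ifs
    · exact le_rfl
    · exact hp a (mem_sdiff.1 ha).1
  have hle1 : ∀ a₀ ∈ T₀, ∑ a ∈ T, (if red (f a) = red (f a₀) then p a else 0) ≤ p a₀ + q := by
    intro a₀ ha₀
    rw [← sum_sdiff hT₀, hq, add_comm]
    apply add_le_add
    · rw [sum_eq_single a₀]
      · rw [if_pos rfl]
      · intro a ha hne
        exact if_neg fun h => hne (hdist' a ha a₀ ha₀ h)
      · intro h; exact absurd ha₀ h
    · apply sum_le_sum
      intro a ha
      split_ifs
      · exact le_rfl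
      · exact hp a (mem_sdiff.1 ha).1
  have hge1 : ∀ a₀ ∈ T₀, p a₀ ≤ ∑ a ∈ T, (if red (f a) = red (f a₀) then p a else 0) := by
    intro a₀ ha₀
    have h5 := single_le_sum (f := fun a => if red (f a) = red (f a₀) then p a else 0)
      (fun a ha => by
        split_ifs
        · exact hp a ha
        · exact le_rfl) (hT₀ ha₀)
    simpa using h5
  have hST : ∀ b ∈ S, ∃ a ∈ T₀, red (f a) = red (c b) := by
    intro b hb
    by_contra hcon
    push Not at hcon
    have h2 := hfour (red (c b)) (hcred b hb) (-1) (Or.inr rfl)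
    have h3 := hle (red (c b)) hcon
    have h4 : ℓ b - 2 ≤ ∑ b' ∈ S, (if red (c b') = red (c b) then ℓ b' - 2 else 0) := by
      have h5 := single_le_sum (f := fun b' => if red (c b') = red (c b) then ℓ b' - 2 else 0)
        (fun b' hb' => by
          split_ifs
          · have := hℓ b' hb'; omega
          · exact le_rfl) hb
      simpa using h5
    have := hbig b hb
    linarith
  -- the terms
  have hsum' := four_sum T S p (fun b => ℓ b - 2) (fun a => red (f a))
    (fun b => red (c b)) hodd' hcred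
  have hub : ∀ b ∈ S, ∑ n : Fin r → ZMod 2,
      (2 * (ℓ b * c b (u n) ^ 2 + 2 * x b (u n) * c b (u n)) -
        (ℓ b - 2) * (1 - chi (n ⬝ᵥ red (c b)))) ≤ 2 ^ r * D := by
    intro b hb
    rw [hD, ← hsum']
    apply sum_le_sum
    intro n _
    have h2 := hT n
    have h3 := single_le_sum (f := fun b => 2 * (ℓ b * c b (u n) ^ 2 + 2 * x b (u n) * c b (u n)) -
        (ℓ b - 2) * (1 - chi (n ⬝ᵥ red (c b)))) (fun b' hb' => sub_nonneg.2 (hterm' n b' hb')) hb
    rw [sum_sub_distrib] at h3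
    linarith
  have hstage : ∀ b ∈ S, ∀ a ∈ T₀, red (f a) = red (c b) → ∀ s : ℤ, (s = 1 ∨ s = -1) →
      (∀ z, c b z = s * f a z) ∨ ∃ g : M →ₗ[ℤ] ℤ, (∀ z, c b z = s * f a z + 2 * g z) ∧
        ∀ z, ((g z : ℤ) : ZMod 2) = ((f a z : ℤ) : ZMod 2) := by
    intro b hb a ha hab s hs
    have haT := hT₀ ha
    by_cases h0 : ∀ z, c b z = s * f a z
    · exact Or.inl h0
    right
    push Not at h0
    obtain ⟨x0, hx0⟩ := h0
    obtain ⟨k, γ, hk, hγ⟩ := odd_part x0 _ (c b - s • f a) (by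
      rw [LinearMap.sub_apply, LinearMap.smul_apply, smul_eq_mul]
      exact sub_ne_zero.2 hx0) le_rfl
    have hk' : ∀ z, c b z = s * f a z + 2 ^ k * γ z := by
      intro z
      have := hk z
      rw [LinearMap.sub_apply, LinearMap.smul_apply, smul_eq_mul] at this
      linarith
    have hγ' := hne γ hγ
    have hcong : ∀ z, ((f a z : ℤ) : ZMod 2) = ((c b z : ℤ) : ZMod 2) := (hred _ _).1 hab
    have hk1 : k ≠ 0 := by
      rintro rfl
      obtain ⟨z, hz⟩ := hγ
      have h2 := hcong z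
      rw [← sub_eq_zero, ← Int.cast_sub, cast_zero_iff, hk' z, pow_zero, one_mul] at h2
      rcases hs with rfl | rfl
      · rw [one_mul, sub_add_eq_sub_sub, sub_self, zero_sub, even_neg] at h2
        exact (Int.not_even_iff_odd.2 hz) h2
      · have h3 : f a z - (-1 * f a z + γ z) = 2 * f a z - γ z := by ring
        rw [h3, Int.even_sub] at h2
        exact (Int.not_even_iff_odd.2 hz) (h2.1 (even_two_mul _))
    have hbe := hbig b hb
    have hub' := hub b hb
    by_cases hk2 : 2 ≤ k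
    · exfalso
      have h4 : (4 : ℤ) ∣ 2 ^ k := ⟨2 ^ (k - 2), by
        rw [show (4 : ℤ) = 2 ^ 2 by norm_num, ← pow_add]
        congr 1
        omega⟩
      have hlow : ∀ n : Fin r → ZMod 2, (8 * ℓ b - 4) * (1 - chi (n ⬝ᵥ red γ)) ≤
          2 * (ℓ b * c b (u n) ^ 2 + 2 * x b (u n) * c b (u n)) -
          (ℓ b - 2) * (1 - chi (n ⬝ᵥ red (c b))) := by
        intro n
        rcases hchi n γ with ⟨-, h5⟩ | ⟨h5, h6⟩
        · rw [h5, sub_self, mul_zero, sub_nonneg]
          exact hterm' n b hb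
        · rw [h6]
          have h7 : 3 ≤ |c b (u n)| := by
            obtain ⟨m, hm⟩ := h4
            obtain ⟨t, ht⟩ := h5
            have h8 : c b (u n) = s * f a (u n) + 4 * (m * (2 * t + 1)) := by
              rw [hk', hm, ht]; ring
            have h9 : m * (2 * t + 1) ≠ 0 := by
              intro h9
              rcases mul_eq_zero.1 h9 with h10 | h10
              · rw [h10, mul_zero] at hm
                have : (0 : ℤ) < 2 ^ k := by positivity
                omega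
              · omega
            have h10 : s * f a (u n) = 0 ∨ s * f a (u n) = 1 ∨ s * f a (u n) = -1 := by
              rcases hs with rfl | rfl <;> rcases hu1 n a haT with h | h | h <;> rw [h] <;> norm_num
            generalize m * (2 * t + 1) = w at h8 h9
            rw [le_abs]
            omega
          have h8 : chi (n ⬝ᵥ red (c b)) = 1 ∨ chi (n ⬝ᵥ red (c b)) = -1 := by
            rcases hchi n (c b) with ⟨-, h⟩ | ⟨-, h⟩
            · exact Or.inl h
            · exact Or.inr h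
          have h9 : -|c b (u n)| ≤ x b (u n) * c b (u n) := by
            rcases hx1 n b hb with h | h | h <;> rw [h]
            · rw [zero_mul]; exact neg_nonpos.2 (abs_nonneg _)
            · rw [one_mul]; exact neg_abs_le _
            · rw [neg_one_mul, neg_le_neg_iff]; exact le_abs_self _
          have h10 : c b (u n) ^ 2 = |c b (u n)| ^ 2 := (sq_abs _).symm
          rw [h10, mul_assoc]
          have h11 := hℓ b hb
          generalize |c b (u n)| = w at h7 h9 h10 ⊢
          have h13 : 0 ≤ (w - 3) * (ℓ b * (w + 3) - 2) :=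
            mul_nonneg (by linarith) (by nlinarith)
          have h12 : 9 * ℓ b - 6 ≤ ℓ b * w ^ 2 - 2 * w := by
            have h14 : (w - 3) * (ℓ b * (w + 3) - 2) = ℓ b * w ^ 2 - 2 * w - (9 * ℓ b - 6) := by ring
            linarith
          rcases h8 with h | h <;> rw [h] <;> nlinarith
      have h5 : ∑ n : Fin r → ZMod 2, (8 * ℓ b - 4) * (1 - chi (n ⬝ᵥ red γ)) ≤ 2 ^ r * D :=
        le_trans (sum_le_sum fun n _ => hlow n) hub'
      rw [← mul_sum, key_sum0 hγ', mul_comm] at h5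
      have h6 := le_of_mul_le_mul_left h5 hpow
      linarith [hℓ b hb]
    · have hk3 : k = 1 := by omega
      subst hk3
      refine ⟨γ, fun z => by rw [hk' z, pow_one], ?_⟩
      by_contra hcon
      have hγP : red γ ≠ red (f a) := fun h => hcon ((hred _ _).1 h)
      have hlow : ∀ n : Fin r → ZMod 2,
          (2 * (ℓ b - 1)) * ((1 - chi (n ⬝ᵥ red γ)) * (1 + 1 * chi (n ⬝ᵥ red (f a)))) ≤
          2 * (ℓ b * c b (u n) ^ 2 + 2 * x b (u n) * c b (u n)) -
          (ℓ b - 2) * (1 - chi (n ⬝ᵥ red (c b))) := by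
        intro n
        have hz : 0 ≤ 2 * (ℓ b * c b (u n) ^ 2 + 2 * x b (u n) * c b (u n)) -
            (ℓ b - 2) * (1 - chi (n ⬝ᵥ red (c b))) := sub_nonneg.2 (hterm' n b hb)
        rcases hchi n γ with ⟨-, h5⟩ | ⟨h5, h6⟩
        · rw [h5, sub_self, zero_mul, mul_zero]
          exact hz
        · rcases hchi n (f a) with ⟨h7, h8⟩ | ⟨-, h8⟩
          · rw [← hab, h8, h6]
            have h9 : f a (u n) = 0 := by
              rcases hu1 n a haT with h | h | h
              · exact h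
              · rw [h] at h7; exact absurd h7 (by decide)
              · rw [h] at h7; exact absurd h7 (by decide)
            have h10 : c b (u n) = 2 * γ (u n) := by rw [hk', h9, mul_zero, zero_add, pow_one]
            have h11 : 2 ≤ |c b (u n)| := by
              rw [h10]
              obtain ⟨t, ht⟩ := h5
              rw [ht, le_abs]
              omega
            have h12 : -|c b (u n)| ≤ x b (u n) * c b (u n) := by
              rcases hx1 n b hb with h | h | h <;> rw [h]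
              · rw [zero_mul]; exact neg_nonpos.2 (abs_nonneg _)
              · rw [one_mul]; exact neg_abs_le _
              · rw [neg_one_mul, neg_le_neg_iff]; exact le_abs_self _
            have h13 : c b (u n) ^ 2 = |c b (u n)| ^ 2 := (sq_abs _).symm
            rw [h13, mul_assoc]
            have h14 := hℓ b hb
            generalize |c b (u n)| = w at h11 h12 h13 ⊢
            have h16 : 0 ≤ (w - 2) * (ℓ b * (w + 2) - 2) :=
              mul_nonneg (by linarith) (by nlinarith)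
            have h15 : 4 * ℓ b - 4 ≤ ℓ b * w ^ 2 - 2 * w := by
              have h17 : (w - 2) * (ℓ b * (w + 2) - 2) = ℓ b * w ^ 2 - 2 * w - (4 * ℓ b - 4) := by
                ring
              linarith
            nlinarith
          · rw [h8]
            have : (1 - chi (n ⬝ᵥ red γ)) * (1 + 1 * (-1 : ℤ)) = 0 := by ring
            rw [this, mul_zero]
            exact hz
      have h5 : ∑ n : Fin r → ZMod 2,
          (2 * (ℓ b - 1)) * ((1 - chi (n ⬝ᵥ red γ)) * (1 + 1 * chi (n ⬝ᵥ red (f a)))) ≤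
          2 ^ r * D := le_trans (sum_le_sum fun n _ => hlow n) hub'
      rw [← mul_sum, key_sum hγ' (hodd' a haT), if_neg hγP, mul_zero, sub_zero, mul_one,
        mul_comm] at h5
      have h6 := le_of_mul_le_mul_left h5 hpow
      linarith [hℓ b hb]
  have hmain : ∀ b ∈ S, ∃ a ∈ T₀, red (f a) = red (c b) ∧
      ((∀ z, c b z = f a z) ∨ ∀ z, c b z = - f a z) := by
    intro b hb
    obtain ⟨a, ha, hab⟩ := hST b hb
    refine ⟨a, ha, hab, ?_⟩
    rcases hstage b hb a ha hab 1 (Or.inl rfl) with h | ⟨g1, h2, h3⟩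
    · left
      intro z
      rw [h, one_mul]
    · rcases hstage b hb a ha hab (-1) (Or.inr rfl) with h | ⟨g2, h4, h5⟩
      · right
        intro z
        rw [h]; ring
      · exfalso
        obtain ⟨z, hz⟩ := hodd a (hT₀ ha)
        have h6 := h2 z
        have h7 := h4 z
        have h8 : f a z = g2 z - g1 z := by linarith
        have h9 : ((f a z : ℤ) : ZMod 2) = 0 := by
          rw [h8, Int.cast_sub, h3, h5, sub_self]
        rw [cast_zero_iff] at h9
        exact (Int.not_even_iff_odd.2 hz) h9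
  -- the map
  have hmain' : ∀ b : S, ∃ a : T₀, red (f a) = red (c b) ∧
      ((∀ z, c b z = f a z) ∨ ∀ z, c b z = - f a z) := by
    intro b
    obtain ⟨a, ha, h⟩ := hmain b b.2
    exact ⟨⟨a, ha⟩, h⟩
  choose π hπ1 hπ2 using hmain'
  have hkey : ∀ a : T₀, p a ≤ D + ∑ b : S with π b = a, (ℓ b - 2) := by
    intro a
    have h2 := hfour (red (f a)) (hodd' a (hT₀ a.2)) 1 (Or.inl rfl)
    have h3 := hge1 a a.2
    have h4 : ∑ b ∈ S, (if red (c b) = red (f a) then ℓ b - 2 else 0) =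
        ∑ b : S with π b = a, (ℓ b - 2) := by
      rw [← sum_coe_sort S fun b => if red (c b) = red (f a) then ℓ b - 2 else 0, sum_filter]
      apply sum_congr rfl
      intro b _
      have h5 : (red (c b) = red (f a)) ↔ π b = a := by
        rw [← hπ1 b]
        constructor
        · intro h
          exact Subtype.ext (hdist' _ (π b).2 _ a.2 h)
        · intro h
          rw [h]
      simp only [h5]
    rw [h4] at h2
    linarith
  refine ⟨π, ?_, hπ2, ?_, hkey⟩
  · intro a
    by_contra hcon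
    push Not at hcon
    have h2 := hkey a
    rw [sum_eq_zero_iff_of_nonneg (fun b _ => by have := hℓ b b.2; omega) |>.2 (fun b hb => by
      exact absurd (mem_filter.1 hb).2 (hcon b))] at h2
    have := hbig' a a.2
    linarith
  · intro b
    have h2 := hfour (red (c b)) (hcred b b.2) (-1) (Or.inr rfl)
    have h3 := hle1 (π b) (π b).2
    rw [hπ1 b] at h3
    have h4 : ℓ b - 2 ≤ ∑ b' ∈ S, (if red (c b') = red (c b) then ℓ b' - 2 else 0) := by
      have h5 := single_le_sum (f := fun b' => if red (c b') = red (c b) then ℓ b' - 2 else 0)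
        (fun b' hb' => by
          split_ifs
          · have := hℓ b' hb'; omega
          · exact le_rfl) b.2
      simpa using h5
    linarith

end Pool.Agent.H754.Twist
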