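import Pool.Agent.H754.Twist.Half

/-!
A numerical inequality for the twist regions of one type.
-/

set_option autoImplicit false
set_option linter.unusedSectionVars false

namespace Pool.Agent.H754.Twist

open Finset Matrix
open Pool.Agent.H762.TG (chains eq_zero_of_dot IsUnit')
open Pool.Agent.H762.MX

variable {E : Type} [Fintype E] [DecidableEq E]

/-- The elements of the lattice which vanish outside `Z`. -/
def within {E : Type} (L : Submodule ℤ (E → ℤ)) (Z : Finset E) : Submodule ℤ (E → ℤ) where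
  carrier := {x | x ∈ L ∧ ∀ e, e ∉ Z → x e = 0}
  add_mem' := by
    rintro x y ⟨hx, hx'⟩ ⟨hy, hy'⟩
    exact ⟨L.add_mem hx hy, fun e he => by rw [Pi.add_apply, hx' e he, hy' e he, add_zero]⟩
  zero_mem' := ⟨L.zero_mem, fun _ _ => rfl⟩
  smul_mem' := by
    rintro c x ⟨hx, hx'⟩
    exact ⟨L.smul_mem c hx, fun e he => by rw [Pi.smul_apply, hx' e he, smul_zero]⟩

/-- The lattice is embedded in the standard lattice of rank `n`. -/
def EmbedsIn {ι : Type} [Fintype ι] (M : Submodule ℤ (ι → ℤ)) (n : ℕ) : Prop :=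
  ∃ φ : (ι → ℤ) → Fin n → ℤ, Pool.Agent.H762.TG.IsIsometry M φ

theorem exists_frame' {L : Submodule ℤ (E → ℤ)} {S I : Finset E} (hI : I ⊆ S)
    {ℓ : E → ℕ} (hpos : ∀ e, 0 < ℓ e) (hℓ : ∀ e ∈ I, 2 ≤ ℓ e)
    (hodd : ∀ e, ∃ x ∈ L, Odd (x e))
    (hpar : ∀ e ∈ I, ∀ f ∈ I, e ≠ f → ℓ e = 2 → ℓ f = 2 → ∃ x ∈ L, Odd (x e + x f))
    {ι : Type} [Fintype ι] [DecidableEq ι] (φ : blowup L S ℓ →ₗ[ℤ] (ι → ℤ))
    (hφ : ∀ a b, φ a ⬝ᵥ φ b = (a : (Σ e, Fin (ℓ e)) → ℤ) ⬝ᵥ (b : (Σ e, Fin (ℓ e)) → ℤ)) :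
    Nonempty (Frame L S I ℓ φ) := by
  classical
  let v : I → ℕ → ι → ℤ := fun e s =>
    if h : s + 1 < ℓ e then φ ⟨rt ℓ e s h, rt_mem (hI e.2) s h⟩ else 0
  have hv : ∀ (e : I) (s : ℕ) (h : s + 1 < ℓ e), v e s = φ ⟨rt ℓ e s h, rt_mem (hI e.2) s h⟩ :=
    fun e s h => dif_pos h
  have hvv : ∀ (e f : I) (s r : ℕ) (h : s + 1 < ℓ e) (h' : r + 1 < ℓ f),
      v e s ⬝ᵥ v f r = (if e = f then (if s = r then 1 else 0) -
      (if s = r + 1 then 1 else 0) else 0) - (if e = f then (if s + 1 = r then 1 else 0) -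
      (if s + 1 = r + 1 then 1 else 0) else 0) := by
    intro e f s r h h'
    rw [hv e s h, hv f r h', hφ]
    change rt ℓ e s h ⬝ᵥ rt ℓ f r h' = _
    rw [rt_dot, rt_apply, rt_apply]
    simp only [Subtype.ext_iff]
  have hpl : ∀ {x : E → ℤ}, x ∈ L → ∃ z : blowup L S ℓ, ∀ (e : I) (s : ℕ) (h : s + 1 < ℓ e),
      φ z ⬝ᵥ v e s = if s = 0 then x e else 0 := by
    intro x hx
    refine ⟨⟨_, mem_place S hx fun f => ⟨0, hpos f⟩⟩, ?_⟩
    intro e s h
    rw [hv e s h, dotProduct_comm, hφ]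
    change rt ℓ e s h ⬝ᵥ _ = _
    rw [rt_dot]
    have h1 : (e : E) ∈ S ∧ (⟨s + 1, h⟩ : Fin (ℓ e)) ≠ ⟨0, hpos e⟩ :=
      ⟨hI e.2, fun h' => by simp only [Fin.mk.injEq] at h'; omega⟩
    simp only
    rw [if_pos h1, sub_zero]
    by_cases hs : s = 0
    · subst hs
      rw [if_pos rfl, if_neg fun h' => h'.2 rfl]
    · rw [if_neg hs, if_pos]
      exact ⟨hI e.2, fun h' => hs (by simp only [Fin.mk.injEq] at h'; omega)⟩
  obtain ⟨b, ε, hg, hb⟩ := chains (J := I) (q := fun e => ℓ e) (v := v)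
    (fun j => hℓ j j.2)
    (by
      intro j s hs
      rw [hvv j j s s (by omega) (by omega)]
      simp)
    (by
      intro j s hs
      rw [hvv j j s (s + 1) (by omega) (by omega), if_pos rfl, if_pos rfl, if_neg (by omega),
        if_neg (by omega), if_pos rfl, if_neg (by omega)]
      ring)
    (by
      intro j s r hs hr
      rw [hvv j j s r (by omega) (by omega), if_pos rfl, if_pos rfl, if_neg (by omega),
        if_neg (by omega), if_neg (by omega), if_neg (by omega)]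
      ring)
    (by
      intro j l s r hjl hs hr
      rw [hvv j l s r (by omega) (by omega), if_neg hjl, if_neg hjl, sub_zero])
    (by
      intro j hj
      obtain ⟨x, hx, hxe⟩ := hodd j
      obtain ⟨z, hz⟩ := hpl hx
      refine ⟨φ z, ?_⟩
      rw [hz j 0 (by omega), hz j 2 (by omega), if_pos rfl, if_neg (by omega), add_zero]
      exact hxe)
    (by
      intro j l hjl hj hl
      obtain ⟨x, hx, hxe⟩ := hpar j j.2 l l.2 (fun h => hjl (Subtype.ext h)) hj hl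
      obtain ⟨z, hz⟩ := hpl hx
      refine ⟨φ z, ?_⟩
      rw [hz j 0 (by omega), hz l 0 (by omega), if_pos rfl, if_pos rfl]
      exact hxe)
  have hB : Function.Injective fun k : Σ e : I, Fin (ℓ e) => b k.1 k.2 := by
    rintro ⟨e, i⟩ ⟨f, j⟩ h
    obtain ⟨h1, h2⟩ := hb e f i j i.2 j.2 h
    subst h1
    rw [Fin.ext h2]
  have hεsq : ∀ (e : I) (s : ℕ), s < ℓ e → ε e s * ε e s = 1 := by
    intro e s hs
    rcases (hg e).1 s (by omega) with h | h <;> rw [h] <;> rfl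
  have hconst : ∀ (z : blowup L S ℓ) (e : I) (s : ℕ) (hs : s < ℓ e),
      ε e s * φ z (b e s) - (z : (Σ e, Fin (ℓ e)) → ℤ) ⟨e, ⟨s, hs⟩⟩ =
      ε e 0 * φ z (b e 0) - (z : (Σ e, Fin (ℓ e)) → ℤ) ⟨e, ⟨0, hpos e⟩⟩ := by
    intro z e s
    induction s with
    | zero => intro _; rfl
    | succ s ih =>
      intro hs
      rw [← ih (by omega)]
      have h1 := (hg e).dot (φ z) (s := s) (by omega)
      have h2 : v e s ⬝ᵥ φ z = rt ℓ e s hs ⬝ᵥ (z : (Σ e, Fin (ℓ e)) → ℤ) := by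
        rw [hv e s hs]
        exact hφ _ _
      rw [h2, rt_dot] at h1
      linarith
  refine ⟨⟨fun k => b k.1 k.2, hB, fun k => ε k.1 k.2, fun k => hεsq k.1 k.2 k.2.2,
    fun e => (ε e 0) • (LinearMap.proj (b e 0) ∘ₗ φ) - cv L S ℓ ⟨e, ⟨0, hpos e⟩⟩, ?_⟩⟩
  intro z k
  have h1 := hconst z k.1 k.2 k.2.2
  rw [LinearMap.sub_apply, LinearMap.smul_apply, smul_eq_mul, cv_apply]
  change _ = _ + (ε k.1 0 * φ z (b k.1 0) - _)
  rw [← h1]
  ring

end Pool.Agent.H754.Twist
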