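import Pool.Agent.H754.Twist.Count
import Pool.Agent.H762.MX.Blow

/-!
The number of vanishing shifts.
-/

set_option autoImplicit false
set_option linter.unusedSectionVars false

namespace Pool.Agent.H754.Twist

open Finset Matrix
open Pool.Agent.H762.TG (chains eq_zero_of_dot IsUnit')
open Pool.Agent.H762.MX

variable {E : Type} [Fintype E] [DecidableEq E]

namespace Frame

variable {L : Submodule ℤ (E → ℤ)} {S I : Finset E} {ℓ : E → ℕ} {ι : Type} [Fintype ι]
  [DecidableEq ι] {φ : blowup L S ℓ →ₗ[ℤ] (ι → ℤ)} (F : Frame L S I ℓ φ)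

/-- the signed indicator function of a block -/
def ind (e : I) (o : ι) : ℤ := ∑ i, if F.B ⟨e, i⟩ = o then F.ε ⟨e, i⟩ else 0

theorem ind_dot (e : I) (u : ι → ℤ) : F.ind e ⬝ᵥ u = ∑ i, F.ε ⟨e, i⟩ * u (F.B ⟨e, i⟩) := by
  rw [dotProduct]
  simp only [ind, sum_mul, ite_mul, zero_mul]
  rw [sum_comm]
  apply sum_congr rfl
  intro i _
  rw [sum_ite_eq]
  simp

theorem ind_B (e f : I) (i : Fin (ℓ f)) : F.ind e (F.B ⟨f, i⟩) =
    if f = e then F.ε ⟨f, i⟩ else 0 := by
  rw [ind]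
  by_cases h : f = e
  · subst h
    rw [if_pos rfl, sum_eq_single i]
    · rw [if_pos rfl]
    · intro j _ hj
      rw [if_neg]
      intro h
      have h1 := F.inj h
      simp only [Sigma.mk.injEq, heq_eq_eq, true_and] at h1
      exact hj h1
    · intro h; exact absurd (mem_univ _) h
  · rw [if_neg h]
    apply sum_eq_zero
    intro j _
    rw [if_neg]
    intro h'
    have h1 := congrArg Sigma.fst (F.inj h')
    exact h h1.symm

theorem ind_ind (e f : I) : F.ind e ⬝ᵥ F.ind f = if e = f then (ℓ e : ℤ) else 0 := by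
  rw [ind_dot]
  by_cases h : e = f
  · subst h
    rw [if_pos rfl, sum_congr rfl fun i _ => by rw [ind_B, if_pos rfl, F.hε], sum_const,
      card_univ, Fintype.card_fin, nsmul_eq_mul, mul_one]
  · rw [if_neg h]
    apply sum_eq_zero
    intro i _
    rw [ind_B, if_neg h, mul_zero]

theorem ind_map (e : I) (h : F.γ e = 0) (z : blowup L S ℓ) :
    F.ind e ⬝ᵥ φ z = xs L S ℓ e z := by
  rw [ind_dot, xs_apply]
  apply sum_congr rfl
  intro i _
  rw [F.val, h, LinearMap.zero_apply, add_zero]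

/-- the number of vanishing shifts -/
theorem card_vanishing (hI : I ⊆ S) (hpos : ∀ e, 0 < ℓ e)
    (hφ : ∀ a b, φ a ⬝ᵥ φ b = (a : (Σ e, Fin (ℓ e)) → ℤ) ⬝ᵥ (b : (Σ e, Fin (ℓ e)) → ℤ))
    (Z : Finset E) (hZI : Z ⊆ I) (hZ : ∀ (e : E) (he : e ∈ Z), F.γ ⟨e, hZI he⟩ = 0) :
    Module.finrank ℤ (blowup L S ℓ) + Z.card ≤ Fintype.card ι + Module.finrank ℤ (within L Z) := by
  classical
  let W : (Z → ℤ) →ₗ[ℤ] (ι → ℤ) :=
    { toFun := fun a => ∑ e, a e • F.ind ⟨e, hZI e.2⟩
      map_add' := fun a b => by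
        rw [← sum_add_distrib]
        exact sum_congr rfl fun e _ => by rw [Pi.add_apply, add_smul]
      map_smul' := fun c a => by
        rw [RingHom.id_apply, smul_sum]
        exact sum_congr rfl fun e _ => by rw [Pi.smul_apply, smul_assoc] }
  have hW : ∀ a, W a = ∑ e, a e • F.ind ⟨e, hZI e.2⟩ := fun _ => rfl
  have hWW : ∀ a, W a ⬝ᵥ W a = ∑ e : Z, a e ^ 2 * ℓ e := by
    intro a
    rw [hW, sum_dotProduct]
    apply sum_congr rfl
    intro e _
    rw [dotProduct_sum, sum_eq_single e]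
    · rw [smul_dotProduct, dotProduct_smul, ind_ind, if_pos rfl, smul_eq_mul, smul_eq_mul]
      ring
    · intro f _ hf
      rw [smul_dotProduct, dotProduct_smul, ind_ind, if_neg, smul_zero, smul_zero]
      intro h
      exact hf (Subtype.ext (congrArg (fun x : I => (x : E)) h).symm)
    · intro h; exact absurd (mem_univ _) h
  have hWφ : ∀ a z, W a ⬝ᵥ φ z = ∑ e : Z, a e * xs L S ℓ e z := by
    intro a z
    rw [hW, sum_dotProduct]
    apply sum_congr rfl
    intro e _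
    rw [smul_dotProduct, F.ind_map _ (hZ e e.2), smul_eq_mul]
  let Ψ : (blowup L S ℓ × (Z → ℤ)) →ₗ[ℤ] (ι → ℤ) := φ.coprod W
  have hΨ : ∀ p, Ψ p = φ p.1 + W p.2 := fun p => LinearMap.coprod_apply _ _ _
  -- the kernel
  have hker : ∀ p, Ψ p = 0 → ∀ k : Σ e, Fin (ℓ e), (p.1 : (Σ e, Fin (ℓ e)) → ℤ) k =
      - (if h : k.1 ∈ Z then p.2 ⟨k.1, h⟩ else 0) := by
    rintro ⟨z, a⟩ hp
    rw [hΨ] at hp
    simp only at hp ⊢
    have h1 : φ z = - W a := eq_neg_of_add_eq_zero_left hp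
    let v : (Σ e, Fin (ℓ e)) → ℤ := fun k => if h : k.1 ∈ Z then a ⟨k.1, h⟩ else 0
    have hv : ∀ u : (Σ e, Fin (ℓ e)) → ℤ, u ⬝ᵥ v = ∑ e : Z, a e * ∑ i, u ⟨e, i⟩ := by
      intro u
      rw [dotProduct, Fintype.sum_sigma, ← sum_add_sum_compl Z, ← sum_coe_sort Z]
      have h2 : ∑ e ∈ Zᶜ, ∑ i : Fin (ℓ e), u ⟨e, i⟩ * v ⟨e, i⟩ = 0 := by
        apply sum_eq_zero
        intro e he
        apply sum_eq_zero
        intro i _
        simp only [v]
        rw [dif_neg (mem_compl.1 he), mul_zero]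
      rw [h2, add_zero]
      apply sum_congr rfl
      intro e _
      rw [mul_sum]
      apply sum_congr rfl
      intro i _
      simp only [v]
      rw [dif_pos e.2, mul_comm]
    have h2 : (z : (Σ e, Fin (ℓ e)) → ℤ) ⬝ᵥ (z : (Σ e, Fin (ℓ e)) → ℤ) =
        ∑ e : Z, a e ^ 2 * ℓ e := by
      rw [← hφ, h1, neg_dotProduct, dotProduct_neg, neg_neg, hWW]
    have h3 : (z : (Σ e, Fin (ℓ e)) → ℤ) ⬝ᵥ v = - ∑ e : Z, a e ^ 2 * ℓ e := by
      rw [hv]
      have h4 := hWφ a z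
      rw [h1, dotProduct_neg, hWW] at h4
      rw [h4]
      apply sum_congr rfl
      intro e _
      rw [xs_apply]
    have h4 : v ⬝ᵥ v = ∑ e : Z, a e ^ 2 * ℓ e := by
      rw [hv]
      apply sum_congr rfl
      intro e _
      have h6 : ∀ i : Fin (ℓ e), v ⟨e, i⟩ = a e := fun i => dif_pos e.2
      have h5 : ∑ i : Fin (ℓ e), v ⟨e, i⟩ = ℓ e * a e := by
        rw [sum_congr rfl fun i _ => h6 i, sum_const, card_univ, Fintype.card_fin,
          nsmul_eq_mul]
      rw [h5]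
      ring
    have h5 : (z : (Σ e, Fin (ℓ e)) → ℤ) + v = 0 := by
      apply eq_zero_of_dot
      rw [add_dotProduct, dotProduct_add, dotProduct_add, h2, dotProduct_comm v, h3, h4]
      ring
    intro k
    have h6 := congrFun h5 k
    rw [Pi.add_apply, Pi.zero_apply] at h6
    exact eq_neg_of_add_eq_zero_left h6
  have hmem : ∀ p : LinearMap.ker Ψ, rho S ℓ hpos ((p : blowup L S ℓ × (Z → ℤ)).1) ∈
      within L Z := by
    intro p
    refine ⟨rho_mem L S ℓ hpos _, fun e he => ?_⟩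
    have h1 := hker p p.2
    change (if e ∈ S then ∑ i, ((p : blowup L S ℓ × (Z → ℤ)).1 : (Σ e, Fin (ℓ e)) → ℤ) ⟨e, i⟩
      else ((p : blowup L S ℓ × (Z → ℤ)).1 : (Σ e, Fin (ℓ e)) → ℤ) ⟨e, ⟨0, hpos e⟩⟩) = 0
    have h2 : ∀ i, ((p : blowup L S ℓ × (Z → ℤ)).1 : (Σ e, Fin (ℓ e)) → ℤ) ⟨e, i⟩ = 0 := by
      intro i
      rw [h1, dif_neg he, neg_zero]
    split_ifs
    · exact sum_eq_zero fun i _ => h2 i
    · exact h2 _
  let κ : LinearMap.ker Ψ →ₗ[ℤ] within L Z :=
    { toFun := fun p => ⟨_, hmem p⟩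
      map_add' := fun p q => by
        apply Subtype.ext
        exact map_add (rho S ℓ hpos) _ _
      map_smul' := fun c p => by
        apply Subtype.ext
        exact map_smul (rho S ℓ hpos) c _ }
  have hκ : Function.Injective κ := by
    rw [← LinearMap.ker_eq_bot, LinearMap.ker_eq_bot']
    intro p hp
    have h1 := hker p p.2
    have h2 : ∀ e : Z, (p : blowup L S ℓ × (Z → ℤ)).2 e = 0 := by
      intro e
      have h3 : rho S ℓ hpos ((p : blowup L S ℓ × (Z → ℤ)).1 : (Σ e, Fin (ℓ e)) → ℤ) e = 0 :=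
        congrFun (congrArg Subtype.val hp) e
      change (if (e : E) ∈ S then ∑ i, ((p : blowup L S ℓ × (Z → ℤ)).1 :
        (Σ e, Fin (ℓ e)) → ℤ) ⟨e, i⟩
        else ((p : blowup L S ℓ × (Z → ℤ)).1 : (Σ e, Fin (ℓ e)) → ℤ) ⟨e, ⟨0, hpos e⟩⟩) = 0 at h3
      have h5 : ∀ i : Fin (ℓ e), ((p : blowup L S ℓ × (Z → ℤ)).1 : (Σ e, Fin (ℓ e)) → ℤ) ⟨e, i⟩ =
          - (p : blowup L S ℓ × (Z → ℤ)).2 e := fun i => by
        rw [h1, dif_pos e.2]
      rw [if_pos (hI (hZI e.2)), sum_congr rfl fun i _ => h5 i, sum_const,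
        card_univ, Fintype.card_fin, nsmul_eq_mul, mul_neg, neg_eq_zero] at h3
      have h4 := hpos e
      rcases mul_eq_zero.1 h3 with h | h
      · omega
      · exact h
    apply Subtype.ext
    apply Prod.ext
    · apply Subtype.ext
      funext k
      rw [h1]
      change - _ = (0 : ℤ)
      rw [neg_eq_zero]
      split_ifs with h
      · exact h2 ⟨k.1, h⟩
      · rfl
    · funext e
      exact h2 e
  have h1 := Submodule.finrank_quotient_add_finrank (LinearMap.ker Ψ)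
  rw [Ψ.quotKerEquivRange.finrank_eq] at h1
  have h2 : Module.finrank ℤ (LinearMap.range Ψ) ≤ Fintype.card ι := by
    have := Submodule.finrank_le (LinearMap.range Ψ)
    rwa [Module.finrank_fintype_fun_eq_card] at this
  have h3 := LinearMap.finrank_le_finrank_of_injective hκ
  rw [Module.finrank_prod, Module.finrank_fintype_fun_eq_card, Fintype.card_coe] at h1
  omega

end Frame

end Pool.Agent.H754.Twist
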