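import Pool.Agent.H754.Twist.Pairs

/-!
The vectors of lengths for which both embeddings exist form finitely many families.
-/

set_option autoImplicit false
set_option linter.unusedSectionVars false

namespace Pool.Agent.H754.Twist

open Finset Matrix
open Pool.Agent.H762.TG (Multigraph)
open Pool.Agent.H762.MX

/-- the scales -/
def scale (m : ℕ) : ℕ → ℕ
  | 0 => 1
  | k + 1 => 3 * m * scale m k + 2

theorem scale_pos (m k : ℕ) : 1 ≤ scale m k := by
  induction k with
  | zero => exact le_rfl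
  | succ k _ => simp only [scale]; omega

theorem scale_le (m k : ℕ) : scale m k ≤ (3 * m + 2) ^ k := by
  induction k with
  | zero => exact le_rfl
  | succ k ih =>
    have h1 := scale_pos m k
    calc scale m (k + 1) = 3 * m * scale m k + 2 := rfl
      _ ≤ 3 * m * scale m k + 2 * scale m k := by omega
      _ = (3 * m + 2) * scale m k := by ring
      _ ≤ (3 * m + 2) * (3 * m + 2) ^ k := Nat.mul_le_mul_left _ ih
      _ = (3 * m + 2) ^ (k + 1) := by ring

theorem scale_mono (m : ℕ) (hm : 0 < m) : Monotone (scale m) := by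
  apply monotone_nat_of_le_succ
  intro k
  have h1 := scale_pos m k
  simp only [scale]
  nlinarith

/-- a gap between the lengths -/
theorem exists_gap {E : Type} [Fintype E] [Nonempty E] (ℓ : E → ℕ) :
    ∃ k ≤ Fintype.card E, ∀ e, scale (Fintype.card E) k < ℓ e →
      scale (Fintype.card E) (k + 1) < ℓ e := by
  by_contra hcon
  push Not at hcon
  have h1 : ∀ k : Fin (Fintype.card E + 1), ∃ e, scale (Fintype.card E) k < ℓ e ∧
      ℓ e ≤ scale (Fintype.card E) (k + 1) := fun k => hcon k (by omega)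
  choose f hf1 hf2 using h1
  have hlt : ∀ k l : Fin (Fintype.card E + 1), k < l → f k ≠ f l := by
    intro k l hkl h
    have h2 := hf2 k
    have h3 := hf1 l
    have h4 : (k : ℕ) + 1 ≤ l := hkl
    have h5 := scale_mono (Fintype.card E) Fintype.card_pos h4
    rw [h] at h2
    omega
  have hinj : Function.Injective f := by
    intro k l h
    rcases lt_trichotomy k l with h2 | h2 | h2
    · exact absurd h (hlt k l h2)
    · exact h2
    · exact absurd h.symm (hlt l k h2)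
  have h2 := Fintype.card_le_of_injective f hinj
  rw [Fintype.card_fin] at h2
  omega

/-- the minimum of the lengths along a cycle -/
noncomputable def low {E : Type} (σ : Equiv.Perm E) (ℓ : E → ℕ) (e : E) : ℕ :=
  sInf (Set.range fun i : ℕ => ℓ ((σ ^ i) e))

theorem low_le {E : Type} (σ : Equiv.Perm E) (ℓ : E → ℕ) (e : E) : low σ ℓ e ≤ ℓ e :=
  Nat.sInf_le ⟨0, by simp⟩

theorem low_inv {E : Type} [Finite E] (σ : Equiv.Perm E) (ℓ : E → ℕ) (e : E) :
    low σ ℓ (σ e) = low σ ℓ e := by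
  unfold low
  congr 1
  ext a
  simp only [Set.mem_range]
  constructor
  · rintro ⟨i, hi⟩
    refine ⟨i + 1, ?_⟩
    rw [← hi, pow_succ, Equiv.Perm.mul_apply]
  · rintro ⟨i, hi⟩
    have h1 := orderOf_pos σ
    refine ⟨i + (orderOf σ - 1), ?_⟩
    rw [← hi, ← Equiv.Perm.mul_apply, ← pow_succ]
    have h2 : i + (orderOf σ - 1) + 1 = i + orderOf σ := by omega
    rw [h2, pow_add, pow_orderOf_eq_one, mul_one]

theorem low_mem {E : Type} (σ : Equiv.Perm E) (ℓ : E → ℕ) (e : E) :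
    ∃ i : ℕ, ℓ ((σ ^ i) e) = low σ ℓ e :=
  Nat.sInf_mem (s := Set.range fun i : ℕ => ℓ ((σ ^ i) e)) ⟨_, 0, rfl⟩

theorem near {E : Type} [Fintype E] [DecidableEq E] (σ : Equiv.Perm E) (ℓ : E → ℕ) (R : Finset E)
    {c : ℤ} (hc : 0 ≤ c) (h1 : ∀ e ∈ R, σ e ∈ R)
    (h2 : ∀ e ∈ R, |(ℓ (σ e) : ℤ) - ℓ e| ≤ c) {e : E} (he : e ∈ R) :
    (ℓ e : ℤ) ≤ low σ ℓ e + (Fintype.card E + 1) * c := by
  obtain ⟨i, hi⟩ := low_mem σ ℓ e
  have h3 : σ.SameCycle e ((σ ^ i) e) := ⟨i, rfl⟩
  obtain ⟨j, -, hj, hij⟩ := h3.exists_pow_eq σ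
  have h4 : #(σ.cycleOf e).support ≤ Fintype.card E := card_le_univ _
  have h5 : ∀ j : ℕ, (σ ^ j) e ∈ R ∧ (ℓ e : ℤ) ≤ ℓ ((σ ^ j) e) + j * c := by
    intro j
    induction j with
    | zero => simp [he]
    | succ j ih =>
      obtain ⟨h6, h7⟩ := ih
      have h8 := h1 _ h6
      have h9 := h2 _ h6
      rw [pow_succ', Equiv.Perm.mul_apply]
      refine ⟨h8, ?_⟩
      rw [abs_le] at h9
      rw [Nat.cast_succ]
      linarith
  have h6 := (h5 j).2
  rw [hij, hi] at h6
  have h7 : (j : ℤ) * c ≤ (Fintype.card E + 1) * c := by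
    apply mul_le_mul_of_nonneg_right _ hc
    exact_mod_cast hj.trans (by omega)
  linarith

variable {V E : Type} [Fintype V] [Fintype E] [DecidableEq V] [DecidableEq E]

/-- `t` is constant on the cycles of `σ` and vanishes at its fixed points. -/
def OnCycles {E : Type} (σ : Equiv.Perm E) (t : E → ℕ) : Prop :=
  ∀ e, t (σ e) = t e ∧ (σ e = e → t e = 0)

theorem exists_family [Nonempty E] (G : Multigraph V E) (S : Finset E)
    (hG : ∀ e, (∃ x ∈ G.cuts, x e ≠ 0) ∧ ∃ y ∈ G.flows, y e ≠ 0)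
    (hser : ∀ e ∈ S, ∀ f ∈ S, G.Series e f → e = f)
    (hpar : ∀ e, e ∉ S → ∀ f, f ∉ S → Parallel G e f → e = f) (ℓ : E → ℕ)
    (hpos : ∀ e, 0 < ℓ e) (h : BothEmbed G S ℓ) :
    ∃ (σ : Equiv.Perm E) (k t : E → ℕ), (∀ e, σ e ≠ e → (e ∈ S ↔ σ e ∉ S)) ∧
      (∀ e, 0 < k e ∧ k e ≤ (3 * Fintype.card E + 2) ^ (Fintype.card E + 2)) ∧
      OnCycles σ t ∧ (∀ e, ℓ e = k e + t e) ∧
      ∀ t', OnCycles σ t' → BothEmbed G S fun e => k e + t' e := by
  set m := Fintype.card E with hm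
  obtain ⟨j, hj, hgap⟩ := exists_gap ℓ
  rw [← hm] at hj hgap
  set R : Finset E := univ.filter fun e => scale m j < ℓ e with hR
  have hRmem : ∀ e, e ∈ R ↔ scale m j < ℓ e := fun e => by rw [hR, mem_filter]; simp
  set n := R.card + ∑ e ∈ Rᶜ, ℓ e with hn
  have hnm : n ≤ m * scale m j := by
    have h1 : R.card ≤ ∑ _e ∈ R, scale m j := by
      rw [card_eq_sum_ones]
      exact sum_le_sum fun e _ => scale_pos m j
    have h2 : ∑ e ∈ Rᶜ, ℓ e ≤ ∑ _e ∈ Rᶜ, scale m j := by
      apply sum_le_sum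
      intro e he
      have h3 := mem_compl.1 he
      rw [hRmem, not_lt] at h3
      exact h3
    have h3 : ∑ _e ∈ R, scale m j + ∑ _e ∈ Rᶜ, scale m j = m * scale m j := by
      rw [sum_add_sum_compl, sum_const, card_univ, smul_eq_mul]
    omega
  have hsc : scale m (j + 1) = 3 * (m * scale m j) + 2 := by
    simp only [scale]
    ring
  obtain ⟨σ, h1, h2, h3, h4⟩ := permuted G S R ℓ hG
    (fun e he f hf => hser e (mem_inter.1 he).1 f (mem_inter.1 hf).1)
    (fun e he f hf => hpar e (mem_sdiff.1 he).2 f (mem_sdiff.1 hf).2) hpos hn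
    (fun e he => by
      have := hgap e ((hRmem e).1 he)
      omega) h
  have hne : ∀ e ∈ R, σ e ≠ e := by
    intro e he h5
    have h6 := (h2 e he).2
    rw [h5] at h6
    tauto
  have hfix : ∀ e, σ e = e → e ∉ R := fun e he he' => hne e he' he
  have hc : (0 : ℤ) ≤ 3 * n + 2 := by positivity
  -- the bound
  have hbound : (m + 1) * scale m (j + 1) + 1 ≤ (3 * m + 2) ^ (m + 2) := by
    have h5 : scale m (j + 1) ≤ (3 * m + 2) ^ (m + 1) :=
      (scale_le m (j + 1)).trans (Nat.pow_le_pow_right (by omega) (by omega))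
    have h6 : 1 ≤ (3 * m + 2) ^ (m + 1) := Nat.one_le_pow _ _ (by omega)
    calc (m + 1) * scale m (j + 1) + 1 ≤ (m + 1) * (3 * m + 2) ^ (m + 1) + (3 * m + 2) ^ (m + 1) :=
          add_le_add (Nat.mul_le_mul_left _ h5) h6
      _ = (m + 2) * (3 * m + 2) ^ (m + 1) := by ring
      _ ≤ (3 * m + 2) * (3 * m + 2) ^ (m + 1) := Nat.mul_le_mul_right _ (by omega)
      _ = (3 * m + 2) ^ (m + 2) := by ring
  let t : E → ℕ := fun e => if e ∈ R then low σ ℓ e - 1 else 0
  have hlow : ∀ e ∈ R, 0 < low σ ℓ e := by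
    intro e _
    obtain ⟨i, hi⟩ := low_mem σ ℓ e
    rw [← hi]
    exact hpos _
  have ht1 : ∀ e, t (σ e) = t e := by
    intro e
    by_cases he : e ∈ R
    · simp only [t]
      rw [if_pos he, if_pos (h2 e he).1, low_inv]
    · rw [h1 e he]
  have ht2 : ∀ e, σ e = e → t e = 0 := fun e he => if_neg (hfix e he)
  have htl : ∀ e, t e < ℓ e := by
    intro e
    by_cases he : e ∈ R
    · have h5 := low_le σ ℓ e
      have h6 := hlow e he
      simp only [t]
      rw [if_pos he]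
      omega
    · simp only [t]
      rw [if_neg he]
      exact hpos e
  refine ⟨σ, fun e => ℓ e - t e, t, ?_, ?_, fun e => ⟨ht1 e, ht2 e⟩, ?_, ?_⟩
  · intro e he
    have he' : e ∈ R := by
      by_contra h5
      exact he (h1 e h5)
    exact (h2 e he').2
  · intro e
    refine ⟨by have := htl e; simp only; omega, ?_⟩
    by_cases he : e ∈ R
    · have h5 := near σ ℓ R hc (fun e he => (h2 e he).1) h3 he
      have h6 := hlow e he
      have h7 := low_le σ ℓ e
      have h8 : (ℓ e : ℤ) ≤ ((low σ ℓ e + (m + 1) * (3 * n + 2) : ℕ) : ℤ) := by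
        push_cast
        exact h5
      have h9 : ℓ e ≤ low σ ℓ e + (m + 1) * (3 * n + 2) := by exact_mod_cast h8
      have h10 : (m + 1) * (3 * n + 2) ≤ (m + 1) * scale m (j + 1) := by
        apply Nat.mul_le_mul_left
        rw [hsc]
        omega
      simp only [t]
      rw [if_pos he]
      omega
    · simp only [t]
      rw [if_neg he, Nat.sub_zero]
      have h5 : ℓ e ≤ scale m j := by
        rw [hRmem, not_lt] at he
        exact he
      have h6 : scale m j ≤ (m + 1) * scale m (j + 1) := by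
        rw [hsc]
        have : 1 ≤ m := Fintype.card_pos
        nlinarith [scale_pos m j]
      omega
  · intro e
    have := htl e
    simp only
    omega
  · intro t' ht'
    apply h4
    · intro e
      have := htl e
      simp only
      omega
    · intro e he
      have h5 := (ht' e).2 (h1 e he)
      simp only [t]
      rw [if_neg he, h5]
      omega
    · intro e _
      have h5 := (ht' e).1
      have h6 := htl e
      have h7 := htl (σ e)
      have h8 := ht1 e
      simp only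
      omega

/-- The vectors of lengths for which both embeddings exist form finitely many families. -/
theorem families [Nonempty E] (G : Multigraph V E) (S : Finset E)
    (hG : ∀ e, (∃ x ∈ G.cuts, x e ≠ 0) ∧ ∃ y ∈ G.flows, y e ≠ 0)
    (hser : ∀ e ∈ S, ∀ f ∈ S, G.Series e f → e = f)
    (hpar : ∀ e, e ∉ S → ∀ f, f ∉ S → Parallel G e f → e = f) :
    ∃ 𝓕 : Finset (Equiv.Perm E × (E → ℕ)),
      (∀ p ∈ 𝓕, (∀ e, p.1 e ≠ e → (e ∈ S ↔ p.1 e ∉ S)) ∧
        ∀ e, 0 < p.2 e ∧ p.2 e ≤ (3 * Fintype.card E + 2) ^ (Fintype.card E + 2)) ∧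
      ∀ ℓ : E → ℕ, (∀ e, 0 < ℓ e) →
        (BothEmbed G S ℓ ↔ ∃ p ∈ 𝓕, ∃ t, OnCycles p.1 t ∧ ∀ e, ℓ e = p.2 e + t e) := by
  classical
  let C := (3 * Fintype.card E + 2) ^ (Fintype.card E + 2)
  let 𝓕 : Finset (Equiv.Perm E × (E → ℕ)) :=
    ((univ : Finset (Equiv.Perm E)) ×ˢ Fintype.piFinset fun _ => Finset.Icc 1 C).filter fun p =>
      (∀ e, p.1 e ≠ e → (e ∈ S ↔ p.1 e ∉ S)) ∧
      ∀ t', OnCycles p.1 t' → BothEmbed G S fun e => p.2 e + t' e
  have hmem : ∀ p, p ∈ 𝓕 ↔ (∀ e, 1 ≤ p.2 e ∧ p.2 e ≤ C) ∧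
      (∀ e, p.1 e ≠ e → (e ∈ S ↔ p.1 e ∉ S)) ∧
      ∀ t', OnCycles p.1 t' → BothEmbed G S fun e => p.2 e + t' e := by
    intro p
    simp only [𝓕, mem_filter, mem_product, mem_univ, true_and, Fintype.mem_piFinset,
      Finset.mem_Icc]
  refine ⟨𝓕, fun p hp => ?_, fun ℓ hℓ => ?_⟩
  · obtain ⟨h1, h2, -⟩ := (hmem p).1 hp
    exact ⟨h2, fun e => h1 e⟩
  · constructor
    · intro h
      obtain ⟨σ, k, t, h1, h2, h3, h4, h5⟩ := exists_family G S hG hser hpar ℓ hℓ h
      exact ⟨(σ, k), (hmem _).2 ⟨fun e => h2 e, h1, h5⟩, t, h3, h4⟩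
    · rintro ⟨p, hp, t, h1, h2⟩
      have h3 := ((hmem p).1 hp).2.2 t h1
      have h4 : ℓ = fun e => p.2 e + t e := funext h2
      rw [h4]
      exact h3

end Pool.Agent.H754.Twist
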