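import Pool.Agent.H762.MX.Emb

/-!
The long classes in an embedding of a blown up lattice.
-/

set_option autoImplicit false
set_option linter.unusedSectionVars false

namespace Pool.Agent.H754.Twist

open Finset Matrix
open Pool.Agent.H762.TG (chains)
open Pool.Agent.H762.MX

variable {E : Type} [Fintype E] [DecidableEq E]

/-- The long classes `I ⊆ S` occupy disjoint blocks of coordinates. -/
structure Frame (L : Submodule ℤ (E → ℤ)) (S I : Finset E) (ℓ : E → ℕ) {ι : Type} [Fintype ι]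
    (φ : blowup L S ℓ →ₗ[ℤ] (ι → ℤ)) where
  /-- the blocks -/
  B : (Σ e : I, Fin (ℓ e)) → ι
  inj : Function.Injective B
  /-- the signs -/
  ε : (Σ e : I, Fin (ℓ e)) → ℤ
  hε : ∀ k, ε k * ε k = 1
  /-- the shifts -/
  γ : I → blowup L S ℓ →ₗ[ℤ] ℤ
  val : ∀ (z : blowup L S ℓ) (k : Σ e : I, Fin (ℓ e)),
    ε k * φ z (B k) = (z : (Σ e, Fin (ℓ e)) → ℤ) ⟨k.1, k.2⟩ + γ k.1 z

/-- the coordinate functionals -/
def cv (L : Submodule ℤ (E → ℤ)) (S : Finset E) (ℓ : E → ℕ) (k : Σ e, Fin (ℓ e)) :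
    blowup L S ℓ →ₗ[ℤ] ℤ := LinearMap.proj k ∘ₗ (blowup L S ℓ).subtype

theorem cv_apply (L : Submodule ℤ (E → ℤ)) (S : Finset E) (ℓ : E → ℕ) (k : Σ e, Fin (ℓ e))
    (z : blowup L S ℓ) : cv L S ℓ k z = (z : (Σ e, Fin (ℓ e)) → ℤ) k := rfl

/-- the sum over a class -/
def xs (L : Submodule ℤ (E → ℤ)) (S : Finset E) (ℓ : E → ℕ) (e : E) :
    blowup L S ℓ →ₗ[ℤ] ℤ := ∑ i, cv L S ℓ ⟨e, i⟩

theorem xs_apply (L : Submodule ℤ (E → ℤ)) (S : Finset E) (ℓ : E → ℕ) (e : E)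
    (z : blowup L S ℓ) : xs L S ℓ e z = ∑ i, (z : (Σ e, Fin (ℓ e)) → ℤ) ⟨e, i⟩ := by
  rw [xs, LinearMap.sum_apply]
  rfl

theorem exists_frame {L : Submodule ℤ (E → ℤ)} {S I : Finset E} (hI : I ⊆ S)
    {ℓ : E → ℕ} (hℓ : ∀ e ∈ I, 5 ≤ ℓ e) {ι : Type} [Fintype ι] [DecidableEq ι]
    (φ : blowup L S ℓ →ₗ[ℤ] (ι → ℤ))
    (hφ : ∀ a b, φ a ⬝ᵥ φ b = (a : (Σ e, Fin (ℓ e)) → ℤ) ⬝ᵥ (b : (Σ e, Fin (ℓ e)) → ℤ)) :
    Nonempty (Frame L S I ℓ φ) := by
  classical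
  have hpos : ∀ e : I, 0 < ℓ e := fun e => by have := hℓ e e.2; omega
  let v : I → ℕ → ι → ℤ := fun e s =>
    if h : s + 1 < ℓ e then φ ⟨rt ℓ e s h, rt_mem (hI e.2) s h⟩ else 0
  have hv : ∀ (e : I) (s : ℕ) (h : s + 1 < ℓ e), v e s = φ ⟨rt ℓ e s h, rt_mem (hI e.2) s h⟩ :=
    fun e s h => dif_pos h
  have hvv : ∀ (e f : I) (s r : ℕ) (h : s + 1 < ℓ e) (h' : r + 1 < ℓ f),
      v e s ⬝ᵥ v f r = (if e = f then (if s = r then 1 else 0) -
      (if s = r + 1 then 1 else 0) else 0) - (if e = f then (if s + 1 = r then 1 else 0) -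
      (if s + 1 = r + 1 then 1 else 0) else 0) := by
    intro e f s r h h'
    rw [hv e s h, hv f r h', hφ]
    change rt ℓ e s h ⬝ᵥ rt ℓ f r h' = _
    rw [rt_dot, rt_apply, rt_apply]
    simp only [Subtype.ext_iff]
  obtain ⟨b, ε, hg, hb⟩ := chains (J := I) (q := fun e => ℓ e) (v := v)
    (fun j => by have := hℓ j j.2; omega)
    (by
      intro j s hs
      rw [hvv j j s s (by omega) (by omega)]
      simp)
    (by
      intro j s hs
      rw [hvv j j s (s + 1) (by omega) (by omega), if_pos rfl, if_pos rfl, if_neg (by omega),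
        if_neg (by omega), if_pos rfl, if_neg (by omega)]
      ring)
    (by
      intro j s r hs hr
      rw [hvv j j s r (by omega) (by omega), if_pos rfl, if_pos rfl, if_neg (by omega),
        if_neg (by omega), if_neg (by omega), if_neg (by omega)]
      ring)
    (by
      intro j l s r hjl hs hr
      rw [hvv j l s r (by omega) (by omega), if_neg hjl, if_neg hjl, sub_zero])
    (by intro j hj; have := hℓ j j.2; omega)
    (by intro j l _ hj; have := hℓ j j.2; omega)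
  have hB : Function.Injective fun k : Σ e : I, Fin (ℓ e) => b k.1 k.2 := by
    rintro ⟨e, i⟩ ⟨f, j⟩ h
    obtain ⟨h1, h2⟩ := hb e f i j i.2 j.2 h
    subst h1
    rw [Fin.ext h2]
  have hεsq : ∀ (e : I) (s : ℕ), s < ℓ e → ε e s * ε e s = 1 := by
    intro e s hs
    rcases (hg e).1 s (by omega) with h | h <;> rw [h] <;> rfl
  have hconst : ∀ (z : blowup L S ℓ) (e : I) (s : ℕ) (hs : s < ℓ e),
      ε e s * φ z (b e s) - (z : (Σ e, Fin (ℓ e)) → ℤ) ⟨e, ⟨s, hs⟩⟩ =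
      ε e 0 * φ z (b e 0) - (z : (Σ e, Fin (ℓ e)) → ℤ) ⟨e, ⟨0, hpos e⟩⟩ := by
    intro z e s
    induction s with
    | zero => intro _; rfl
    | succ s ih =>
      intro hs
      rw [← ih (by omega)]
      have h1 := (hg e).dot (φ z) (s := s) (by omega)
      have h2 : v e s ⬝ᵥ φ z = rt ℓ e s hs ⬝ᵥ (z : (Σ e, Fin (ℓ e)) → ℤ) := by
        rw [hv e s hs]
        exact hφ _ _
      rw [h2, rt_dot] at h1
      linarith
  refine ⟨⟨fun k => b k.1 k.2, hB, fun k => ε k.1 k.2, fun k => hεsq k.1 k.2 k.2.2,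
    fun e => (ε e 0) • (LinearMap.proj (b e 0) ∘ₗ φ) - cv L S ℓ ⟨e, ⟨0, hpos e⟩⟩, ?_⟩⟩
  intro z k
  have h1 := hconst z k.1 k.2 k.2.2
  rw [LinearMap.sub_apply, LinearMap.smul_apply, smul_eq_mul, cv_apply]
  change _ = _ + (ε k.1 0 * φ z (b k.1 0) - _)
  rw [← h1]
  ring

namespace Frame

variable {L : Submodule ℤ (E → ℤ)} {S I : Finset E} {ℓ : E → ℕ} {ι : Type} [Fintype ι]
  [DecidableEq ι] {φ : blowup L S ℓ →ₗ[ℤ] (ι → ℤ)} (F : Frame L S I ℓ φ)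

/-- the other coordinates -/
def off : Finset ι := univ.filter fun o => ∀ k, F.B k ≠ o

theorem split (g : ι → ℤ) : ∑ o, g o = ∑ k, g (F.B k) + ∑ o ∈ F.off, g o := by
  rw [← sum_filter_add_sum_filter_not univ (fun o => ∃ k, F.B k = o)]
  congr 1
  · have h1 : (univ.filter fun o => ∃ k, F.B k = o) = univ.image F.B := by
      ext i; simp
    rw [h1, sum_image fun _ _ _ _ h => F.inj h]
  · apply sum_congr _ fun _ _ => rfl
    ext i
    simp only [off, mem_filter, mem_univ, true_and, not_exists, ne_eq]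

theorem off_card : F.off.card + ∑ e ∈ I, ℓ e = Fintype.card ι := by
  have h1 : F.off = (univ.image F.B)ᶜ := by
    ext i
    simp only [off, mem_filter, mem_univ, true_and, mem_compl, mem_image, not_exists, ne_eq]
  have h2 : Fintype.card (Σ e : I, Fin (ℓ e)) = ∑ e ∈ I, ℓ e := by
    rw [Fintype.card_sigma, ← sum_coe_sort I fun e => ℓ e]
    simp
  have h3 := card_compl_add_card (univ.image F.B)
  rw [card_image_of_injective _ F.inj, card_univ, h2] at h3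
  rw [h1, h3]

/-- the scalar product -/
theorem dot (hφ : ∀ a b, φ a ⬝ᵥ φ b = (a : (Σ e, Fin (ℓ e)) → ℤ) ⬝ᵥ (b : (Σ e, Fin (ℓ e)) → ℤ))
    (z w : blowup L S ℓ) : (z : (Σ e, Fin (ℓ e)) → ℤ) ⬝ᵥ (w : (Σ e, Fin (ℓ e)) → ℤ) =
      ∑ e : I, (∑ i, (z : (Σ e, Fin (ℓ e)) → ℤ) ⟨e, i⟩ * (w : (Σ e, Fin (ℓ e)) → ℤ) ⟨e, i⟩ +
        F.γ e z * xs L S ℓ e w + F.γ e w * xs L S ℓ e z + ℓ e * (F.γ e z * F.γ e w)) +
      ∑ o ∈ F.off, φ z o * φ w o := by
  rw [← hφ, dotProduct, F.split, Fintype.sum_sigma]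
  congr 1
  apply sum_congr rfl
  intro e _
  have h1 : ∀ i, φ z (F.B ⟨e, i⟩) * φ w (F.B ⟨e, i⟩) =
      (z : (Σ e, Fin (ℓ e)) → ℤ) ⟨e, i⟩ * (w : (Σ e, Fin (ℓ e)) → ℤ) ⟨e, i⟩ +
        F.γ e z * (w : (Σ e, Fin (ℓ e)) → ℤ) ⟨e, i⟩ + F.γ e w * (z : (Σ e, Fin (ℓ e)) → ℤ) ⟨e, i⟩ +
        F.γ e z * F.γ e w := by
    intro i
    calc φ z (F.B ⟨e, i⟩) * φ w (F.B ⟨e, i⟩)
        = (F.ε ⟨e, i⟩ * F.ε ⟨e, i⟩) * (φ z (F.B ⟨e, i⟩) * φ w (F.B ⟨e, i⟩)) := by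
          rw [F.hε, one_mul]
      _ = (F.ε ⟨e, i⟩ * φ z (F.B ⟨e, i⟩)) * (F.ε ⟨e, i⟩ * φ w (F.B ⟨e, i⟩)) := by ring
      _ = _ := by
        rw [F.val, F.val]
        ring
  rw [sum_congr rfl fun i _ => h1 i, sum_add_distrib, sum_add_distrib, sum_add_distrib,
    ← mul_sum, ← mul_sum, sum_const, card_univ, Fintype.card_fin, nsmul_eq_mul, xs_apply,
    xs_apply]

end Frame

end Pool.Agent.H754.Twist
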