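import Pool.Agent.H754.Twist.Frame
import Pool.Agent.H754.Twist.Core

/-!
Representatives of a blown up lattice modulo two.
-/

set_option autoImplicit false
set_option linter.unusedSectionVars false

namespace Pool.Agent.H754.Twist

open Finset Matrix
open Pool.Agent.H762.TG (IsUnit')
open Pool.Agent.H762.MX

theorem fin_unit : ∀ (n : ℕ) (f : Fin n → ℤ) (c : ℤ), U1 c → (∃ k, ∑ i, f i = c + 2 * k) →
    ∃ w : Fin n → ℤ, (∀ i, U1 (w i)) ∧ (∀ i, ∃ k, f i = w i + 2 * k) ∧ ∑ i, w i = c := by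
  intro n
  induction n with
  | zero =>
    rintro f c hc ⟨k, hk⟩
    refine ⟨f, fun i => i.elim0, fun i => i.elim0, ?_⟩
    simp only [univ_eq_empty, sum_empty] at hk ⊢
    rcases hc with h | h | h <;> omega
  | succ n ih =>
    rintro f c hc ⟨k, hk⟩
    rw [Fin.sum_univ_succ] at hk
    obtain ⟨a, ha, hca, m, hm⟩ : ∃ a, U1 a ∧ U1 (c - a) ∧ ∃ m, f 0 = a + 2 * m := by
      rcases Int.even_or_odd' (f 0) with ⟨m, h | h⟩
      · exact ⟨0, Or.inl rfl, by rwa [sub_zero], m, by omega⟩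
      · rcases hc with h' | h' | h'
        · exact ⟨1, Or.inr (Or.inl rfl), Or.inr (Or.inr (by omega)), m, by omega⟩
        · exact ⟨1, Or.inr (Or.inl rfl), Or.inl (by omega), m, by omega⟩
        · exact ⟨-1, Or.inr (Or.inr rfl), Or.inl (by omega), m + 1, by omega⟩
    obtain ⟨w, h1, h2, h3⟩ := ih (fun i => f i.succ) (c - a) hca ⟨k - m, by omega⟩
    refine ⟨Fin.cons a w, ?_, ?_, ?_⟩
    · intro i
      refine Fin.cases ?_ (fun i => ?_) i
      · exact ha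
      · exact h1 i
    · intro i
      refine Fin.cases ?_ (fun i => ?_) i
      · exact ⟨m, hm⟩
      · exact h2 i
    · rw [Fin.sum_univ_succ]
      simp only [Fin.cons_zero, Fin.cons_succ]
      omega

variable {E : Type} [Fintype E] [DecidableEq E]

theorem blow_unit {L : Submodule ℤ (E → ℤ)} {S : Finset E} {ℓ : E → ℕ}
    (hL : ∀ x ∈ L, ∃ u z, u ∈ L ∧ z ∈ L ∧ x = u + (2 : ℤ) • z ∧ IsUnit' u)
    (z : blowup L S ℓ) : ∃ u v : blowup L S ℓ, z = u + (2 : ℤ) • v ∧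
      (∀ k, U1 (cv L S ℓ k u)) ∧ ∀ e ∈ S, U1 (xs L S ℓ e u) := by
  obtain ⟨z, x, hx, h1, h2⟩ := z
  obtain ⟨u, y, hu, hy, hxu, hu1⟩ := hL x hx
  have hxe : ∀ e, x e = u e + 2 * y e := fun e => by
    rw [hxu]; rfl
  have hex : ∀ e, ∃ w : Fin (ℓ e) → ℤ, (∀ i, U1 (w i)) ∧ (∀ i, ∃ k, z ⟨e, i⟩ = w i + 2 * k) ∧
      (e ∈ S → ∑ i, w i = u e) ∧ (e ∉ S → ∀ i, w i = u e) := by
    intro e
    by_cases he : e ∈ S
    · obtain ⟨w, h3, h4, h5⟩ := fin_unit _ (fun i => z ⟨e, i⟩) (u e) (hu1 e) ⟨y e, by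
        rw [h1 e he, hxe]⟩
      exact ⟨w, h3, h4, fun _ => h5, fun h => absurd he h⟩
    · exact ⟨fun _ => u e, fun _ => hu1 e, fun i => ⟨y e, by rw [h2 e he, hxe]⟩,
        fun h => absurd h he, fun _ _ => rfl⟩
  choose w hw1 hw2 hw3 hw4 using hex
  choose m hm using hw2
  have hU : (fun k => w k.1 k.2 : (Σ e, Fin (ℓ e)) → ℤ) ∈ blowup L S ℓ :=
    ⟨u, hu, fun e he => hw3 e he, fun e he i => hw4 e he i⟩
  have hV : (fun k => m k.1 k.2 : (Σ e, Fin (ℓ e)) → ℤ) ∈ blowup L S ℓ := by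
    refine ⟨y, hy, fun e he => ?_, fun e he i => ?_⟩
    · have h3 := h1 e he
      rw [sum_congr rfl fun i _ => hm e i, sum_add_distrib, hw3 e he, ← mul_sum, hxe] at h3
      change ∑ i, m e i = y e
      omega
    · have h3 := h2 e he i
      rw [hm e i, hw4 e he, hxe] at h3
      change m e i = y e
      omega
  refine ⟨⟨_, hU⟩, ⟨_, hV⟩, ?_, fun k => hw1 k.1 k.2, fun e he => ?_⟩
  · apply Subtype.ext
    funext k
    exact hm k.1 k.2
  · rw [xs_apply]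
    change U1 (∑ i, w e i)
    rw [hw3 e he]
    exact hu1 e

end Pool.Agent.H754.Twist
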