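import Pool.Agent.H754.Twist.Ne
import Pool.Agent.H754.Twist.Units

/-!
One half of the argument: the long classes of the first type are matched to long classes of the
second type.
-/

set_option autoImplicit false
set_option linter.unusedSectionVars false

namespace Pool.Agent.H754.Twist

open Finset Matrix
open Pool.Agent.H762.TG (IsUnit')
open Pool.Agent.H762.MX

variable {E : Type} [Fintype E] [DecidableEq E]

/-- an element of the blown up lattice with the values of `x` at chosen places -/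
theorem mem_place {L : Submodule ℤ (E → ℤ)} (S : Finset E) {ℓ : E → ℕ} {x : E → ℤ} (hx : x ∈ L)
    (i : ∀ e, Fin (ℓ e)) :
    (fun k => if k.1 ∈ S ∧ k.2 ≠ i k.1 then 0 else x k.1 : (Σ e, Fin (ℓ e)) → ℤ) ∈
      blowup L S ℓ := by
  refine ⟨x, hx, fun e he => ?_, fun e he j => ?_⟩
  · rw [sum_eq_single (i e)]
    · simp
    · intro j _ hj
      exact if_pos ⟨he, hj⟩
    · intro h; exact absurd (mem_univ _) h
  · exact if_neg fun h => he h.1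

/-- the sum of squares over the short classes and the long ones of the second type -/
theorem sum_rest {L : Submodule ℤ (E → ℤ)} {S I J : Finset E} (hJ : ∀ e ∈ J, e ∉ S)
    (hIJ : Disjoint I J) {ℓ : E → ℕ} (hpos : ∀ e, 0 < ℓ e) (z w : blowup L S ℓ) :
    (z : (Σ e, Fin (ℓ e)) → ℤ) ⬝ᵥ (w : (Σ e, Fin (ℓ e)) → ℤ) =
      ∑ e : I, ∑ i, (z : (Σ e, Fin (ℓ e)) → ℤ) ⟨e, i⟩ * (w : (Σ e, Fin (ℓ e)) → ℤ) ⟨e, i⟩ +
      (∑ e ∈ J, (ℓ e : ℤ) * ((z : (Σ e, Fin (ℓ e)) → ℤ) ⟨e, ⟨0, hpos e⟩⟩ *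
        (w : (Σ e, Fin (ℓ e)) → ℤ) ⟨e, ⟨0, hpos e⟩⟩) +
      ∑ e ∈ (I ∪ J)ᶜ, ∑ i, (z : (Σ e, Fin (ℓ e)) → ℤ) ⟨e, i⟩ *
        (w : (Σ e, Fin (ℓ e)) → ℤ) ⟨e, i⟩) := by
  have h1 : (z : (Σ e, Fin (ℓ e)) → ℤ) ⬝ᵥ (w : (Σ e, Fin (ℓ e)) → ℤ) =
      ∑ e, ∑ i, (z : (Σ e, Fin (ℓ e)) → ℤ) ⟨e, i⟩ * (w : (Σ e, Fin (ℓ e)) → ℤ) ⟨e, i⟩ := by
    rw [dotProduct, Fintype.sum_sigma]
  rw [h1, ← sum_add_sum_compl (I ∪ J), sum_union hIJ, add_assoc]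
  congr 1
  · exact (sum_coe_sort I fun e => ∑ i, (z : (Σ e, Fin (ℓ e)) → ℤ) ⟨e, i⟩ *
      (w : (Σ e, Fin (ℓ e)) → ℤ) ⟨e, i⟩).symm
  · congr 1
    apply sum_congr rfl
    intro e he
    obtain ⟨x, -, -, h2⟩ := z.2
    obtain ⟨y, -, -, h3⟩ := w.2
    have he' := hJ e he
    rw [sum_congr rfl fun i _ => by rw [h2 e he' i, h3 e he' i], sum_const, card_univ,
      Fintype.card_fin, nsmul_eq_mul, h2 e he', h3 e he']

theorem half {L : Submodule ℤ (E → ℤ)} {S I J : Finset E} (hI : I ⊆ S) (hJ : ∀ e ∈ J, e ∉ S)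
    {ℓ : E → ℕ} (hpos : ∀ e, 0 < ℓ e) (hℓ : ∀ e ∈ I, 5 ≤ ℓ e)
    (hL : ∀ x ∈ L, ∃ u z, u ∈ L ∧ z ∈ L ∧ x = u + (2 : ℤ) • z ∧ IsUnit' u)
    (hodd : ∀ e, ∃ x ∈ L, Odd (x e))
    (hdist : ∀ e ∈ J, ∀ f ∈ J, e ≠ f →
      ∃ x ∈ L, (((x : E → ℤ) e : ℤ) : ZMod 2) ≠ ((x f : ℤ) : ZMod 2))
    (hF : ∀ e ∈ I, ∃ y : E → ℤ, (∀ x ∈ L, x ⬝ᵥ y = 0) ∧ y e ≠ 0)
    {ι : Type} [Fintype ι] [DecidableEq ι] {φ : blowup L S ℓ →ₗ[ℤ] (ι → ℤ)}
    (hφ : ∀ a b, φ a ⬝ᵥ φ b = (a : (Σ e, Fin (ℓ e)) → ℤ) ⬝ᵥ (b : (Σ e, Fin (ℓ e)) → ℤ))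
    (hr : Module.finrank ℤ (blowup L S ℓ) = Fintype.card ι) {D q : ℤ}
    (hD : D = ∑ e ∈ J, (ℓ e : ℤ) + q - ∑ e ∈ I, ((ℓ e : ℤ) - 2))
    (hq : q = ∑ e ∈ (I ∪ J)ᶜ, (ℓ e : ℤ)) :
    0 ≤ D ∧ ((∀ e ∈ I, D + q < ℓ e - 2) → (∀ e ∈ J, D < ℓ e) →
      ∃ (F : Frame L S I ℓ φ) (π : I → J) (η : I → ℤ), Function.Surjective π ∧
        (∀ e, η e * η e = 1) ∧ (∀ e z, F.γ e z = η e * cv L S ℓ ⟨π e, ⟨0, hpos _⟩⟩ z) ∧
        (∀ e : I, (ℓ e : ℤ) - 2 ≤ ℓ (π e) + q + D) ∧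
        ∀ f : J, (ℓ f : ℤ) ≤ D + ∑ e : I with π e = f, ((ℓ e : ℤ) - 2)) := by
  classical
  obtain ⟨F⟩ := exists_frame hI hℓ φ hφ
  have hIJ : Disjoint I J := by
    rw [disjoint_left]
    intro e he he'
    exact hJ e he' (hI he)
  let T : Finset (Σ e, Fin (ℓ e)) := univ.filter fun k => k.1 ∉ I ∧ (k.1 ∈ J → (k.2 : ℕ) = 0)
  let T₀ : Finset (Σ e, Fin (ℓ e)) := univ.filter fun k => k.1 ∈ J ∧ (k.2 : ℕ) = 0
  let p : (Σ e, Fin (ℓ e)) → ℤ := fun k => if k.1 ∈ J then ℓ k.1 else 1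
  have hT₀ : T₀ ⊆ T := by
    intro k hk
    simp only [T₀, T, mem_filter, mem_univ, true_and] at hk ⊢
    exact ⟨fun h => disjoint_left.1 hIJ h hk.1, fun _ => hk.2⟩
  -- sums over `T`
  have hsumT : ∀ g : (Σ e, Fin (ℓ e)) → ℤ, ∑ k ∈ T, p k * g k =
      ∑ e ∈ J, (ℓ e : ℤ) * g ⟨e, ⟨0, hpos e⟩⟩ + ∑ e ∈ (I ∪ J)ᶜ, ∑ i, g ⟨e, i⟩ := by
    intro g
    rw [sum_filter, Fintype.sum_sigma, ← sum_add_sum_compl (I ∪ J), sum_union hIJ]
    have h1 : ∑ e ∈ I, ∑ i : Fin (ℓ e), (if (⟨e, i⟩ : Σ e, Fin (ℓ e)).1 ∉ I ∧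
        ((⟨e, i⟩ : Σ e, Fin (ℓ e)).1 ∈ J → ((⟨e, i⟩ : Σ e, Fin (ℓ e)).2 : ℕ) = 0)
        then p ⟨e, i⟩ * g ⟨e, i⟩ else 0) = 0 := by
      apply sum_eq_zero
      intro e he
      apply sum_eq_zero
      intro i _
      exact if_neg fun h => h.1 he
    rw [h1, zero_add]
    congr 1
    · apply sum_congr rfl
      intro e he
      rw [sum_eq_single (⟨0, hpos e⟩ : Fin (ℓ e))]
      · rw [if_pos ⟨disjoint_right.1 hIJ he, fun _ => rfl⟩]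
        simp only [p]
        rw [if_pos he]
      · intro i _ hi
        apply if_neg
        rintro ⟨-, h⟩
        exact hi (Fin.ext (h he))
      · intro h; exact absurd (mem_univ _) h
    · apply sum_congr rfl
      intro e he
      rw [mem_compl, mem_union, not_or] at he
      apply sum_congr rfl
      intro i _
      rw [if_pos ⟨he.1, fun h => absurd h he.2⟩]
      simp only [p]
      rw [if_neg he.2, one_mul]
  have hsumT1 : ∑ k ∈ T, p k = ∑ e ∈ J, (ℓ e : ℤ) + ∑ e ∈ (I ∪ J)ᶜ, (ℓ e : ℤ) := by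
    have h1 := hsumT fun _ => 1
    simp only [mul_one] at h1
    rw [h1]
    congr 1
    apply sum_congr rfl
    intro e _
    simp
  have hsumT0 : ∑ k ∈ T₀, p k = ∑ e ∈ J, (ℓ e : ℤ) := by
    rw [sum_filter, Fintype.sum_sigma, ← sum_add_sum_compl J]
    have h1 : ∑ e ∈ Jᶜ, ∑ i : Fin (ℓ e), (if (⟨e, i⟩ : Σ e, Fin (ℓ e)).1 ∈ J ∧
        ((⟨e, i⟩ : Σ e, Fin (ℓ e)).2 : ℕ) = 0 then p ⟨e, i⟩ else 0) = 0 := by
      apply sum_eq_zero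
      intro e he
      apply sum_eq_zero
      intro i _
      exact if_neg fun h => (mem_compl.1 he) h.1
    rw [h1, add_zero]
    apply sum_congr rfl
    intro e he
    rw [sum_eq_single (⟨0, hpos e⟩ : Fin (ℓ e))]
    · rw [if_pos ⟨he, rfl⟩]
      simp only [p]
      rw [if_pos he]
    · intro i _ hi
      apply if_neg
      rintro ⟨-, h⟩
      exact hi (Fin.ext h)
    · intro h; exact absurd (mem_univ _) h
  have hqT : q = ∑ k ∈ T \ T₀, p k := by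
    have h1 := sum_sdiff (f := p) hT₀
    rw [hsumT1, hsumT0] at h1
    rw [hq]
    linarith
  have hDT : D = ∑ k ∈ T, p k - ∑ e : I, ((ℓ e : ℤ) - 2) := by
    rw [hsumT1, hD, hq, sum_coe_sort I fun e => (ℓ e : ℤ) - 2]
  have key := core (M := blowup L S ℓ) (A := Σ e, Fin (ℓ e)) (B := I) hT₀ (S := univ)
    (f := cv L S ℓ) (p := p) (x := fun e : I => xs L S ℓ e) (c := F.γ)
    (ℓ := fun e : I => (ℓ e : ℤ)) (D := D) (q := q)
    (by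
      intro z
      obtain ⟨u, v, h1, h2, h3⟩ := blow_unit hL z
      exact ⟨u, v, h1, fun k _ => h2 k, fun e _ => h3 e (hI e.2)⟩)
    (by
      intro z
      have h1 := F.dot hφ z z
      rw [sum_rest hJ hIJ hpos] at h1
      have h2 := hsumT fun k => cv L S ℓ k z ^ 2
      rw [h2]
      have h3 : ∑ e ∈ (I ∪ J)ᶜ, ∑ i, (z : (Σ e, Fin (ℓ e)) → ℤ) ⟨e, i⟩ *
          (z : (Σ e, Fin (ℓ e)) → ℤ) ⟨e, i⟩ = ∑ e ∈ (I ∪ J)ᶜ, ∑ i, cv L S ℓ ⟨e, i⟩ z ^ 2 :=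
        sum_congr rfl fun e _ => sum_congr rfl fun i _ => (sq _).symm
      have h4 : ∑ e ∈ J, (ℓ e : ℤ) * ((z : (Σ e, Fin (ℓ e)) → ℤ) ⟨e, ⟨0, hpos e⟩⟩ *
          (z : (Σ e, Fin (ℓ e)) → ℤ) ⟨e, ⟨0, hpos e⟩⟩) =
          ∑ e ∈ J, (ℓ e : ℤ) * cv L S ℓ ⟨e, ⟨0, hpos e⟩⟩ z ^ 2 :=
        sum_congr rfl fun e _ => by rw [sq]; rfl
      have h5 : 0 ≤ ∑ o ∈ F.off, φ z o * φ z o := sum_nonneg fun o _ => mul_self_nonneg _
      have h6 : ∑ e : I, (∑ i, (z : (Σ e, Fin (ℓ e)) → ℤ) ⟨e, i⟩ *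
          (z : (Σ e, Fin (ℓ e)) → ℤ) ⟨e, i⟩ + F.γ e z * xs L S ℓ e z + F.γ e z * xs L S ℓ e z +
          ℓ e * (F.γ e z * F.γ e z)) = ∑ e : I, ∑ i, (z : (Σ e, Fin (ℓ e)) → ℤ) ⟨e, i⟩ *
          (z : (Σ e, Fin (ℓ e)) → ℤ) ⟨e, i⟩ +
          ∑ e : I, ((ℓ e : ℤ) * F.γ e z ^ 2 + 2 * xs L S ℓ e z * F.γ e z) := by
        rw [← sum_add_distrib]
        exact sum_congr rfl fun e _ => by ring
      rw [h6, h3, h4] at h1
      linarith)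
    (fun k _ => by
      simp only [p]
      split_ifs
      · exact Int.natCast_nonneg _
      · exact zero_le_one)
    (fun e _ => by have := hℓ e e.2; omega)
    (fun e _ => F.ne_zero hI hpos hφ hr e (hF e e.2))
    (by
      rintro ⟨e, i⟩ _
      obtain ⟨x, hx, hxe⟩ := hodd e
      refine ⟨⟨_, mem_place S hx fun f => if h : f = e then h ▸ i else ⟨0, hpos f⟩⟩, ?_⟩
      rw [cv_apply]
      change Odd (if e ∈ S ∧ i ≠ (if h : e = e then h ▸ i else ⟨0, hpos e⟩) then 0 else x e)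
      rw [dif_pos rfl, if_neg (fun h => h.2 rfl)]
      exact hxe)
    (by
      rintro ⟨e, i⟩ he ⟨f, j⟩ hf hne
      simp only [T₀, mem_filter, mem_univ, true_and] at he hf
      have hef : e ≠ f := by
        rintro rfl
        exact hne (by rw [Fin.ext (he.2.trans hf.2.symm)])
      obtain ⟨x, hx, h1⟩ := hdist e he.1 f hf.1 hef
      refine ⟨⟨_, mem_place S hx fun f => ⟨0, hpos f⟩⟩, ?_⟩
      rw [cv_apply, cv_apply]
      change ((if e ∈ S ∧ i ≠ (⟨0, hpos e⟩ : Fin (ℓ e)) then 0 else x e : ℤ) : ZMod 2) ≠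
        ((if f ∈ S ∧ j ≠ (⟨0, hpos f⟩ : Fin (ℓ f)) then 0 else x f : ℤ) : ZMod 2)
      rw [if_neg (fun h => hJ e he.1 h.1), if_neg (fun h => hJ f hf.1 h.1)]
      exact h1)
    hDT hqT
  refine ⟨key.1, fun hbig hbig' => ?_⟩
  obtain ⟨π, hs, h1, h2, h3⟩ := key.2 (fun e _ => hbig e e.2) (by
    rintro ⟨e, i⟩ he
    simp only [T₀, mem_filter, mem_univ, true_and] at he
    simp only [p]
    rw [if_pos he.1]
    exact hbig' e he.1)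
  have hmem : ∀ k : T₀, k.1.1 ∈ J ∧ (k.1.2 : ℕ) = 0 := by
    intro k
    have := k.2
    simp only [T₀, mem_filter, mem_univ, true_and] at this
    exact this
  have hk : ∀ k : T₀, k.1 = ⟨k.1.1, ⟨0, hpos _⟩⟩ := by
    rintro ⟨⟨e, i⟩, h⟩
    have h4 := (hmem ⟨⟨e, i⟩, h⟩).2
    have h5 : i = ⟨0, hpos e⟩ := Fin.ext h4
    subst h5
    rfl
  have hpk : ∀ k : T₀, p k = ℓ k.1.1 := by
    intro k
    simp only [p]
    rw [if_pos (hmem k).1]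
  let π' : I → J := fun e => ⟨(π ⟨e, mem_univ _⟩).1.1, (hmem _).1⟩
  have hη : ∀ e : I, ∃ η : ℤ, η * η = 1 ∧
      ∀ z, F.γ e z = η * cv L S ℓ ⟨π' e, ⟨0, hpos _⟩⟩ z := by
    intro e
    have h4 : cv L S ℓ ⟨π' e, ⟨0, hpos _⟩⟩ = cv L S ℓ (π ⟨e, mem_univ _⟩).1 := by
      rw [hk (π ⟨e, mem_univ _⟩)]
    rw [h4]
    rcases h1 ⟨e, mem_univ _⟩ with h | h
    · exact ⟨1, rfl, fun z => by rw [one_mul]; exact h z⟩
    · exact ⟨-1, rfl, fun z => by rw [neg_one_mul]; exact h z⟩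
  choose η hη1 hη2 using hη
  refine ⟨F, π', η, ?_, hη1, hη2, ?_, ?_⟩
  · intro f
    obtain ⟨e, he⟩ := hs ⟨⟨f, ⟨0, hpos _⟩⟩, by
      simp only [T₀, mem_filter, mem_univ, true_and]
      exact ⟨f.2, trivial⟩⟩
    refine ⟨e.1, Subtype.ext ?_⟩
    change (π e).1.1 = f
    rw [he]
  · intro e
    have h4 := h2 ⟨e, mem_univ _⟩
    rw [hpk] at h4
    exact h4
  · intro f
    have h4 := h3 ⟨⟨f, ⟨0, hpos _⟩⟩, by
      simp only [T₀, mem_filter, mem_univ, true_and]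
      exact ⟨f.2, trivial⟩⟩
    rw [hpk] at h4
    refine h4.trans (le_of_eq ?_)
    congr 1
    rw [sum_filter, sum_filter]
    refine Fintype.sum_equiv (Equiv.subtypeUnivEquiv fun e => mem_univ _) _ _ ?_
    rintro ⟨e, -⟩
    simp only [Equiv.subtypeUnivEquiv_apply]
    have h5 : (π ⟨e, mem_univ _⟩ = ⟨⟨f, ⟨0, hpos _⟩⟩, by
      simp only [T₀, mem_filter, mem_univ, true_and]
      exact ⟨f.2, trivial⟩⟩) ↔ π' e = f := by
      constructor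
      · intro h
        apply Subtype.ext
        change (π ⟨e, mem_univ _⟩).1.1 = f
        rw [h]
      · intro h
        apply Subtype.ext
        rw [hk]
        have h6 : (π ⟨e, mem_univ _⟩).1.1 = f := congrArg Subtype.val h
        have hz : ∀ {a b : E}, a = b →
            (⟨a, ⟨0, hpos a⟩⟩ : Σ e, Fin (ℓ e)) = ⟨b, ⟨0, hpos b⟩⟩ := by
          rintro a _ rfl
          rfl
        exact hz h6
    simp only [h5]

end Pool.Agent.H754.Twist
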