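import Pool.Agent.H754.Twist.Frame
import Pool.Agent.H762.MX.Pair

/-!
The shifts do not vanish.
-/

set_option autoImplicit false
set_option linter.unusedSectionVars false

namespace Pool.Agent.H754.Twist

open Finset Matrix
open Pool.Agent.H762.TG (eq_zero_of_dot)
open Pool.Agent.H762.MX

variable {E : Type} [Fintype E] [DecidableEq E]

namespace Frame

variable {L : Submodule ℤ (E → ℤ)} {S I : Finset E} {ℓ : E → ℕ} {ι : Type} [Fintype ι]
  [DecidableEq ι] {φ : blowup L S ℓ →ₗ[ℤ] (ι → ℤ)} (F : Frame L S I ℓ φ)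

theorem ne_zero (hI : I ⊆ S) (hpos : ∀ e, 0 < ℓ e)
    (hφ : ∀ a b, φ a ⬝ᵥ φ b = (a : (Σ e, Fin (ℓ e)) → ℤ) ⬝ᵥ (b : (Σ e, Fin (ℓ e)) → ℤ))
    (hr : Module.finrank ℤ (blowup L S ℓ) = Fintype.card ι) (e : I)
    (he : ∃ y : E → ℤ, (∀ x ∈ L, x ⬝ᵥ y = 0) ∧ y e ≠ 0) : F.γ e ≠ 0 := by
  intro h0
  have hinj : Function.Injective φ := by
    rw [← LinearMap.ker_eq_bot, LinearMap.ker_eq_bot']
    intro x hx
    apply Subtype.ext
    apply eq_zero_of_dot
    rw [← hφ, hx, dotProduct_zero]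
  let w : ι → ℤ := fun o => ∑ i, if F.B ⟨e, i⟩ = o then F.ε ⟨e, i⟩ else 0
  have hw : ∀ u : ι → ℤ, w ⬝ᵥ u = ∑ i, F.ε ⟨e, i⟩ * u (F.B ⟨e, i⟩) := by
    intro u
    rw [dotProduct]
    simp only [w, sum_mul, ite_mul, zero_mul]
    rw [sum_comm]
    apply sum_congr rfl
    intro i _
    rw [sum_ite_eq]
    simp
  have hwB : ∀ i, w (F.B ⟨e, i⟩) = F.ε ⟨e, i⟩ := by
    intro i
    change (∑ j, if F.B ⟨e, j⟩ = F.B ⟨e, i⟩ then F.ε ⟨e, j⟩ else 0) = _
    rw [sum_eq_single i]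
    · rw [if_pos rfl]
    · intro j _ hj
      rw [if_neg]
      intro h
      have h1 := F.inj h
      simp only [Sigma.mk.injEq, heq_eq_eq, true_and] at h1
      exact hj h1
    · intro h; exact absurd (mem_univ _) h
  have hww : w ⬝ᵥ w = ℓ e := by
    rw [hw, sum_congr rfl fun i _ => by rw [hwB, F.hε], sum_const, card_univ, Fintype.card_fin,
      nsmul_eq_mul, mul_one]
  obtain ⟨k, hk, z, hz⟩ := full_rank φ hinj (by rw [hr, Module.finrank_fintype_fun_eq_card]) w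
  have hwz : ∀ z', w ⬝ᵥ φ z' = xs L S ℓ e z' := by
    intro z'
    rw [hw, xs_apply]
    apply sum_congr rfl
    intro i _
    rw [F.val, h0, LinearMap.zero_apply, add_zero]
  have h1 : xs L S ℓ e z = k * ℓ e := by
    rw [← hwz, hz, dotProduct_smul, hww, smul_eq_mul]
  have h2 : (z : (Σ e, Fin (ℓ e)) → ℤ) ⬝ᵥ (z : (Σ e, Fin (ℓ e)) → ℤ) = k * (k * ℓ e) := by
    rw [← hφ]
    conv_lhs => rw [hz]
    rw [smul_dotProduct, dotProduct_smul, hww, smul_eq_mul, smul_eq_mul]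
  -- the element is a multiple of the class
  let v : (Σ e, Fin (ℓ e)) → ℤ := fun a => if a.1 = e then k else 0
  have hv : ∀ u : (Σ e, Fin (ℓ e)) → ℤ, u ⬝ᵥ v = k * ∑ i, u ⟨e, i⟩ := by
    intro u
    rw [dotProduct, Fintype.sum_sigma, sum_eq_single (e : E)]
    · simp only [v, if_true]
      rw [← sum_mul, mul_comm]
    · intro f _ hf
      apply sum_eq_zero
      intro i _
      simp only [v]
      rw [if_neg hf, mul_zero]
    · intro h; exact absurd (mem_univ _) h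
  have h3 : (z : (Σ e, Fin (ℓ e)) → ℤ) - v = 0 := by
    apply eq_zero_of_dot
    rw [sub_dotProduct, dotProduct_sub, dotProduct_sub, h2, hv, ← xs_apply, h1,
      dotProduct_comm v, hv, ← xs_apply, h1, hv]
    have h4 : ∑ i : Fin (ℓ e), v ⟨e, i⟩ = ℓ e * k := by
      simp only [v, if_true]
      rw [sum_const, card_univ, Fintype.card_fin, nsmul_eq_mul]
    rw [h4]
    ring
  have h4 : ∀ a, (z : (Σ e, Fin (ℓ e)) → ℤ) a = v a := fun a => by
    have := congrFun h3 a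
    rw [Pi.sub_apply, Pi.zero_apply, sub_eq_zero] at this
    exact this
  obtain ⟨x, hx, h5, h6⟩ := z.2
  obtain ⟨y, hy, hye⟩ := he
  have h7 : ∀ f, f ≠ (e : E) → x f = 0 := by
    intro f hf
    by_cases hfS : f ∈ S
    · rw [← h5 f hfS]
      apply sum_eq_zero
      intro i _
      rw [h4]
      simp only [v]
      rw [if_neg hf]
    · rw [← h6 f hfS ⟨0, hpos f⟩, h4]
      simp only [v]
      rw [if_neg hf]
  have h8 : x e = k * ℓ e := by
    rw [← h1, xs_apply, h5 e (hI e.2)]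
  have h9 := hy x hx
  rw [dotProduct, sum_eq_single (e : E) (fun f _ hf => by rw [h7 f hf, zero_mul])
    (fun h => absurd (mem_univ _) h), h8] at h9
  have h10 := hpos e
  rcases mul_eq_zero.1 h9 with h | h
  · rcases mul_eq_zero.1 h with h | h
    · exact hk h
    · omega
  · exact hye h

end Frame

end Pool.Agent.H754.Twist
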