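import Pool.Agent.H754.Twist.Half

/-!
Change of the lengths of matched classes.
-/

set_option autoImplicit false
set_option linter.unusedSectionVars false

namespace Pool.Agent.H754.Twist

open Finset Matrix
open Pool.Agent.H762.TG (IsIsometry)
open Pool.Agent.H762.MX

variable {E : Type} [Fintype E] [DecidableEq E]

theorem sum_cast {n m : ℕ} (h : n = m) (g : Fin m → ℤ) :
    ∑ i : Fin n, g ⟨i, h ▸ i.2⟩ = ∑ i, g i := by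
  subst h
  rfl

/-- transfer to other lengths -/
def zeta (I J : Finset E) {ℓ ℓ' : E → ℕ} (hpos : ∀ e, 0 < ℓ' e) (h : ∀ e, e ∉ I ∪ J → ℓ e = ℓ' e)
    (z : (Σ e, Fin (ℓ' e)) → ℤ) (k : Σ e, Fin (ℓ e)) : ℤ :=
  if hk : k.1 ∈ I ∪ J then
    (if k.1 ∈ I then (if (k.2 : ℕ) = 0 then ∑ i, z ⟨k.1, i⟩ else 0)
      else z ⟨k.1, ⟨0, hpos _⟩⟩)
  else z ⟨k.1, ⟨k.2, h _ hk ▸ k.2.2⟩⟩

section

variable {I J S : Finset E} {ℓ ℓ' : E → ℕ} (hpos : ∀ e, 0 < ℓ' e)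
  (h : ∀ e, e ∉ I ∪ J → ℓ e = ℓ' e)

theorem zeta_I {z : (Σ e, Fin (ℓ' e)) → ℤ} {e : E} (he : e ∈ I) (i : Fin (ℓ e)) :
    zeta I J hpos h z ⟨e, i⟩ = if (i : ℕ) = 0 then ∑ i, z ⟨e, i⟩ else 0 := by
  unfold zeta
  rw [dif_pos (mem_union_left _ he), if_pos he]

theorem zeta_J {z : (Σ e, Fin (ℓ' e)) → ℤ} {e : E} (he : e ∈ J) (he' : e ∉ I) (i : Fin (ℓ e)) :
    zeta I J hpos h z ⟨e, i⟩ = z ⟨e, ⟨0, hpos _⟩⟩ := by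
  unfold zeta
  rw [dif_pos (mem_union_right _ he), if_neg he']

theorem zeta_off {z : (Σ e, Fin (ℓ' e)) → ℤ} {e : E} (he : e ∉ I ∪ J) (i : Fin (ℓ e)) :
    zeta I J hpos h z ⟨e, i⟩ = z ⟨e, ⟨i, h _ he ▸ i.2⟩⟩ := by
  unfold zeta
  rw [dif_neg he]

theorem zeta_sum {z : (Σ e, Fin (ℓ' e)) → ℤ} {e : E} (he : e ∈ I) (h0 : 0 < ℓ e) :
    ∑ i, zeta I J hpos h z ⟨e, i⟩ = ∑ i, z ⟨e, i⟩ := by
  rw [sum_eq_single (⟨0, h0⟩ : Fin (ℓ e))]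
  · rw [zeta_I hpos h he, if_pos rfl]
  · intro i _ hi
    rw [zeta_I hpos h he, if_neg]
    intro h'
    exact hi (Fin.ext h')
  · intro h'; exact absurd (mem_univ _) h'

theorem zeta_mul {z w : (Σ e, Fin (ℓ' e)) → ℤ} {e : E} (he : e ∈ I) (h0 : 0 < ℓ e) :
    ∑ i, zeta I J hpos h z ⟨e, i⟩ * zeta I J hpos h w ⟨e, i⟩ =
      (∑ i, z ⟨e, i⟩) * ∑ i, w ⟨e, i⟩ := by
  rw [sum_eq_single (⟨0, h0⟩ : Fin (ℓ e))]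
  · rw [zeta_I hpos h he, if_pos rfl, zeta_I hpos h he, if_pos rfl]
  · intro i _ hi
    rw [zeta_I hpos h he, if_neg, zero_mul]
    intro h'
    exact hi (Fin.ext h')
  · intro h'; exact absurd (mem_univ _) h'

theorem zeta_mem {L : Submodule ℤ (E → ℤ)} (hI : I ⊆ S) (hJ : ∀ e ∈ J, e ∉ S)
    (hpos1 : ∀ e, 0 < ℓ e) {z : (Σ e, Fin (ℓ' e)) → ℤ} (hz : z ∈ blowup L S ℓ') :
    zeta I J hpos h z ∈ blowup L S ℓ := by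
  obtain ⟨x, hx, h1, h2⟩ := hz
  refine ⟨x, hx, fun e he => ?_, fun e he i => ?_⟩
  · by_cases heI : e ∈ I
    · rw [zeta_sum hpos h heI (hpos1 e), h1 e he]
    · have he' : e ∉ I ∪ J := by
        rw [mem_union, not_or]
        exact ⟨heI, fun h' => hJ e h' he⟩
      rw [sum_congr rfl fun i _ => zeta_off hpos h he' i,
        sum_cast (h _ he') fun i => z ⟨e, i⟩, h1 e he]
  · by_cases heJ : e ∈ J
    · rw [zeta_J hpos h heJ (fun h' => he (hI h')), h2 e he]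
    · have he' : e ∉ I ∪ J := by
        rw [mem_union, not_or]
        exact ⟨fun h' => he (hI h'), heJ⟩
      rw [zeta_off hpos h he', h2 e he]

theorem zeta_add (z w : (Σ e, Fin (ℓ' e)) → ℤ) :
    zeta I J hpos h (z + w) = zeta I J hpos h z + zeta I J hpos h w := by
  funext k
  unfold zeta
  simp only [Pi.add_apply, sum_add_distrib]
  split_ifs <;> simp

end

/-- The lengths of matched classes may be changed simultaneously. -/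
theorem shift {L : Submodule ℤ (E → ℤ)} {S I J : Finset E} (hI : I ⊆ S) (hJ : ∀ e ∈ J, e ∉ S)
    {ℓ ℓ' : E → ℕ} (hpos : ∀ e, 0 < ℓ e) (hpos' : ∀ e, 0 < ℓ' e)
    (hoff : ∀ e, e ∉ I ∪ J → ℓ e = ℓ' e)
    {ι : Type} [Fintype ι] [DecidableEq ι] {φ : blowup L S ℓ →ₗ[ℤ] (ι → ℤ)}
    (hφ : ∀ a b, φ a ⬝ᵥ φ b = (a : (Σ e, Fin (ℓ e)) → ℤ) ⬝ᵥ (b : (Σ e, Fin (ℓ e)) → ℤ))
    (hr : Module.finrank ℤ (blowup L S ℓ) = Fintype.card ι) (F : Frame L S I ℓ φ)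
    {π : I → J} (hπ : Function.Bijective π) {η : I → ℤ} (hη : ∀ e, η e * η e = 1)
    (hγ : ∀ e z, F.γ e z = η e * cv L S ℓ ⟨π e, ⟨0, hpos _⟩⟩ z)
    (hs : ∀ e : I, (ℓ' (π e) : ℤ) - ℓ (π e) = ℓ' e - ℓ e) : StdEmbeds (blowup L S ℓ') := by
  classical
  have hIJ : Disjoint I J := by
    rw [disjoint_left]
    intro e he he'
    exact hJ e he' (hI he)
  have hcard : Fintype.card ((Σ e : I, Fin (ℓ' e)) ⊕ F.off) =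
      Module.finrank ℤ (blowup L S ℓ') := by
    have h1 := finrank_blowup L S ℓ hpos
    have h2 := finrank_blowup L S ℓ' hpos'
    have h3 := F.off_card
    have h4 : ∑ e ∈ S, ℓ e = ∑ e ∈ I, ℓ e + ∑ e ∈ S \ I, ℓ e := by
      rw [add_comm, sum_sdiff hI]
    have h5 : ∑ e ∈ S, ℓ' e = ∑ e ∈ I, ℓ' e + ∑ e ∈ S \ I, ℓ' e := by
      rw [add_comm, sum_sdiff hI]
    have h6 : ∑ e ∈ S \ I, ℓ e = ∑ e ∈ S \ I, ℓ' e := by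
      apply sum_congr rfl
      intro e he
      rw [mem_sdiff] at he
      apply hoff
      rw [mem_union, not_or]
      exact ⟨he.2, fun h' => hJ e h' he.1⟩
    have h7 : Fintype.card (Σ e : I, Fin (ℓ' e)) = ∑ e ∈ I, ℓ' e := by
      rw [Fintype.card_sigma, ← sum_coe_sort I fun e => ℓ' e]
      simp
    rw [Fintype.card_sum, h7, Fintype.card_coe]
    omega
  let θ := Fintype.equivFinOfCardEq hcard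
  let ζ := zeta I J (ℓ := ℓ) hpos' hoff
  have hζ : ∀ z ∈ blowup L S ℓ', ζ z ∈ blowup L S ℓ := fun z hz =>
    zeta_mem hpos' hoff hI hJ hpos hz
  let g : ((Σ e, Fin (ℓ' e)) → ℤ) → ((Σ e : I, Fin (ℓ' e)) ⊕ F.off) → ℤ := fun z =>
    Sum.elim (fun k => z ⟨k.1, k.2⟩ + η k.1 * z ⟨π k.1, ⟨0, hpos' _⟩⟩)
      (fun o => if hz : ζ z ∈ blowup L S ℓ then φ ⟨ζ z, hz⟩ o else 0)
  have hg1 : ∀ z (k : Σ e : I, Fin (ℓ' e)), g z (Sum.inl k) =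
      z ⟨k.1, k.2⟩ + η k.1 * z ⟨π k.1, ⟨0, hpos' _⟩⟩ := fun z k => rfl
  have hg2 : ∀ z (hz : ζ z ∈ blowup L S ℓ) (o : F.off), g z (Sum.inr o) = φ ⟨ζ z, hz⟩ o :=
    fun z hz o => dif_pos hz
  refine ⟨fun z k => g z (θ.symm k), ?_⟩
  intro z hz w hw
  have hzζ := hζ z hz
  have hwζ := hζ w hw
  refine ⟨?_, ?_⟩
  · funext k
    simp only [Pi.add_apply]
    generalize θ.symm k = k'
    rcases k' with k' | o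
    · simp only [hg1, Pi.add_apply]
      ring
    · have h1 : ζ (z + w) = ζ z + ζ w := zeta_add hpos' hoff z w
      have h2 : ζ (z + w) ∈ blowup L S ℓ := by
        rw [h1]
        exact (blowup L S ℓ).add_mem hzζ hwζ
      rw [hg2 _ h2, hg2 _ hzζ, hg2 _ hwζ]
      have h3 : (⟨ζ (z + w), h2⟩ : blowup L S ℓ) = ⟨ζ z, hzζ⟩ + ⟨ζ w, hwζ⟩ := Subtype.ext h1
      rw [h3, map_add]
      rfl
  · change (fun k => g z (θ.symm k)) ⬝ᵥ (fun k => g w (θ.symm k)) = _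
    have e1 : (fun k => g z (θ.symm k)) ⬝ᵥ (fun k => g w (θ.symm k)) =
        ∑ e : I, (∑ i, z ⟨e, i⟩ * w ⟨e, i⟩ +
          η e * z ⟨π e, ⟨0, hpos' _⟩⟩ * ∑ i, w ⟨e, i⟩ +
          η e * w ⟨π e, ⟨0, hpos' _⟩⟩ * ∑ i, z ⟨e, i⟩ +
          ℓ' e * (z ⟨π e, ⟨0, hpos' _⟩⟩ * w ⟨π e, ⟨0, hpos' _⟩⟩)) +
        ∑ o ∈ F.off, φ ⟨ζ z, hzζ⟩ o * φ ⟨ζ w, hwζ⟩ o := by
      rw [dotProduct, Equiv.sum_comp θ.symm fun k => g z k * g w k, Fintype.sum_sum_type,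
        Fintype.sum_sigma, ← sum_coe_sort F.off fun o => φ ⟨ζ z, hzζ⟩ o * φ ⟨ζ w, hwζ⟩ o]
      congr 1
      · apply sum_congr rfl
        intro e _
        simp only [hg1]
        have h3 : ∀ i : Fin (ℓ' e), (z ⟨e, i⟩ + η e * z ⟨π e, ⟨0, hpos' _⟩⟩) *
            (w ⟨e, i⟩ + η e * w ⟨π e, ⟨0, hpos' _⟩⟩) =
            z ⟨e, i⟩ * w ⟨e, i⟩ + (η e * z ⟨π e, ⟨0, hpos' _⟩⟩) * w ⟨e, i⟩ +
            (η e * w ⟨π e, ⟨0, hpos' _⟩⟩) * z ⟨e, i⟩ +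
            (η e * η e) * (z ⟨π e, ⟨0, hpos' _⟩⟩ * w ⟨π e, ⟨0, hpos' _⟩⟩) := fun i => by ring
        rw [sum_congr rfl fun i _ => h3 i, sum_add_distrib, sum_add_distrib, sum_add_distrib,
          ← mul_sum, ← mul_sum, sum_const, card_univ, Fintype.card_fin, nsmul_eq_mul, hη, one_mul]
      · apply sum_congr rfl
        intro o _
        rw [hg2 _ hzζ, hg2 _ hwζ]
    have hzJ : ∀ e : J, ζ z ⟨e, ⟨0, hpos _⟩⟩ = z ⟨e, ⟨0, hpos' _⟩⟩ := fun e =>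
      zeta_J hpos' hoff e.2 (disjoint_right.1 hIJ e.2) _
    have hwJ : ∀ e : J, ζ w ⟨e, ⟨0, hpos _⟩⟩ = w ⟨e, ⟨0, hpos' _⟩⟩ := fun e =>
      zeta_J hpos' hoff e.2 (disjoint_right.1 hIJ e.2) _
    have e2 := F.dot hφ ⟨ζ z, hzζ⟩ ⟨ζ w, hwζ⟩
    rw [sum_rest hJ hIJ hpos] at e2
    simp only at e2
    have e3 : ∑ e : I, (∑ i, ζ z ⟨e, i⟩ * ζ w ⟨e, i⟩ + F.γ e ⟨ζ z, hzζ⟩ * xs L S ℓ e ⟨ζ w, hwζ⟩ +
        F.γ e ⟨ζ w, hwζ⟩ * xs L S ℓ e ⟨ζ z, hzζ⟩ +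
        ℓ e * (F.γ e ⟨ζ z, hzζ⟩ * F.γ e ⟨ζ w, hwζ⟩)) =
        ∑ e : I, ∑ i, ζ z ⟨e, i⟩ * ζ w ⟨e, i⟩ +
        ∑ e : I, (η e * z ⟨π e, ⟨0, hpos' _⟩⟩ * ∑ i, w ⟨e, i⟩ +
          η e * w ⟨π e, ⟨0, hpos' _⟩⟩ * ∑ i, z ⟨e, i⟩ +
          ℓ e * (z ⟨π e, ⟨0, hpos' _⟩⟩ * w ⟨π e, ⟨0, hpos' _⟩⟩)) := by
      rw [← sum_add_distrib]
      apply sum_congr rfl
      intro e _
      rw [hγ, hγ, cv_apply, cv_apply, xs_apply, xs_apply]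
      simp only
      rw [hzJ (π e), hwJ (π e), zeta_sum hpos' hoff e.2 (hpos _),
        zeta_sum hpos' hoff e.2 (hpos _)]
      calc _ = ∑ i, ζ z ⟨e, i⟩ * ζ w ⟨e, i⟩ + (η e * z ⟨π e, ⟨0, hpos' _⟩⟩ * ∑ i, w ⟨e, i⟩ +
          η e * w ⟨π e, ⟨0, hpos' _⟩⟩ * ∑ i, z ⟨e, i⟩ +
          ℓ e * ((η e * η e) * (z ⟨π e, ⟨0, hpos' _⟩⟩ * w ⟨π e, ⟨0, hpos' _⟩⟩))) := by ring
        _ = _ := by rw [hη, one_mul]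
    have e4 := sum_rest hJ hIJ hpos' (⟨z, hz⟩ : blowup L S ℓ') ⟨w, hw⟩
    simp only at e4
    have e5 : ∑ e ∈ (I ∪ J)ᶜ, ∑ i, ζ z ⟨e, i⟩ * ζ w ⟨e, i⟩ =
        ∑ e ∈ (I ∪ J)ᶜ, ∑ i, z ⟨e, i⟩ * w ⟨e, i⟩ := by
      apply sum_congr rfl
      intro e he
      have he' := mem_compl.1 he
      rw [← sum_cast (hoff e he') fun i => z ⟨e, i⟩ * w ⟨e, i⟩]
      apply sum_congr rfl
      intro i _
      have a1 : ∀ u, ζ u ⟨e, i⟩ = u ⟨e, ⟨i, hoff e he' ▸ i.2⟩⟩ := fun u =>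
        zeta_off hpos' hoff he' i
      rw [a1, a1]
    have e6 : ∑ e ∈ J, (ℓ e : ℤ) * (ζ z ⟨e, ⟨0, hpos e⟩⟩ * ζ w ⟨e, ⟨0, hpos e⟩⟩) =
        ∑ e : I, (ℓ (π e) : ℤ) * (z ⟨π e, ⟨0, hpos' _⟩⟩ * w ⟨π e, ⟨0, hpos' _⟩⟩) := by
      rw [← sum_coe_sort J fun e => (ℓ e : ℤ) * (ζ z ⟨e, ⟨0, hpos e⟩⟩ * ζ w ⟨e, ⟨0, hpos e⟩⟩),
        ← hπ.sum_comp]
      apply sum_congr rfl
      intro e _
      rw [hzJ, hwJ]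
    have e7 : ∑ e ∈ J, (ℓ' e : ℤ) * (z ⟨e, ⟨0, hpos' e⟩⟩ * w ⟨e, ⟨0, hpos' e⟩⟩) =
        ∑ e : I, (ℓ' (π e) : ℤ) * (z ⟨π e, ⟨0, hpos' _⟩⟩ * w ⟨π e, ⟨0, hpos' _⟩⟩) := by
      rw [← sum_coe_sort J fun e => (ℓ' e : ℤ) * (z ⟨e, ⟨0, hpos' e⟩⟩ * w ⟨e, ⟨0, hpos' e⟩⟩),
        ← hπ.sum_comp]
    have e8 : ∑ e : I, (∑ i, z ⟨e, i⟩ * w ⟨e, i⟩ +
          η e * z ⟨π e, ⟨0, hpos' _⟩⟩ * ∑ i, w ⟨e, i⟩ +
          η e * w ⟨π e, ⟨0, hpos' _⟩⟩ * ∑ i, z ⟨e, i⟩ +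
          ℓ' e * (z ⟨π e, ⟨0, hpos' _⟩⟩ * w ⟨π e, ⟨0, hpos' _⟩⟩)) =
        ∑ e : I, ∑ i, z ⟨e, i⟩ * w ⟨e, i⟩ +
        ∑ e : I, (η e * z ⟨π e, ⟨0, hpos' _⟩⟩ * ∑ i, w ⟨e, i⟩ +
          η e * w ⟨π e, ⟨0, hpos' _⟩⟩ * ∑ i, z ⟨e, i⟩ +
          ℓ e * (z ⟨π e, ⟨0, hpos' _⟩⟩ * w ⟨π e, ⟨0, hpos' _⟩⟩)) +
        (∑ e : I, (ℓ' (π e) : ℤ) * (z ⟨π e, ⟨0, hpos' _⟩⟩ * w ⟨π e, ⟨0, hpos' _⟩⟩) -
         ∑ e : I, (ℓ (π e) : ℤ) * (z ⟨π e, ⟨0, hpos' _⟩⟩ * w ⟨π e, ⟨0, hpos' _⟩⟩)) := by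
      rw [← sum_sub_distrib, ← sum_add_distrib, ← sum_add_distrib]
      apply sum_congr rfl
      intro e _
      have h1 := hs e
      have h2 : (ℓ' e : ℤ) = ℓ e + (ℓ' (π e) - ℓ (π e)) := by linarith
      rw [h2]
      ring
    rw [e3, e5, e6] at e2
    rw [e7] at e4
    rw [e1, e8, e4]
    linarith

end Pool.Agent.H754.Twist
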